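import Mathlib

/-! Convergence of weak greedy runs under the negation of the summability condition. -/

set_option autoImplicit false

open scoped InnerProductSpace
open Finset Filter Topology

namespace Pool.Agent.H66R3.WB

/-- The negation of this condition is the criterion. -/
def Cond (t : ℕ → ℝ) : Prop :=
  ∃ a : ℕ → ℝ, (∀ n, 0 ≤ a n) ∧ (Summable fun n => a n ^ 2) ∧
    ∀ n, t n ≤ a n * ∑ j ∈ range (n + 1), a j

variable {E : Type*} [NormedAddCommGroup E] [InnerProductSpace ℝ E]

/-- Largest inner product with the dictionary. -/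
noncomputable def sig (D : Set E) (f : E) : ℝ := sSup {x : ℝ | ∃ g ∈ D, x = |⟪f, g⟫_ℝ|}

lemma le_sig {D : Set E} (hD : ∀ g ∈ D, ‖g‖ = 1) (f : E) {g : E} (hg : g ∈ D) :
    |⟪f, g⟫_ℝ| ≤ sig D f := by
  apply le_csSup
  · refine ⟨‖f‖, ?_⟩
    rintro x ⟨g, hg, rfl⟩
    have := abs_real_inner_le_norm f g
    rwa [hD g hg, mul_one] at this
  · exact ⟨g, hg, rfl⟩

lemma sig_nonneg (D : Set E) (f : E) : 0 ≤ sig D f := by
  apply Real.sSup_nonneg
  rintro x ⟨g, hg, rfl⟩
  exact abs_nonneg _

lemma norm_step (f g : E) (hg : ‖g‖ = 1) :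
    ‖f - ⟪f, g⟫_ℝ • g‖ ^ 2 = ‖f‖ ^ 2 - ⟪f, g⟫_ℝ ^ 2 := by
  rw [norm_sub_sq_real, norm_smul, hg, real_inner_smul_right, mul_one, Real.norm_eq_abs, sq_abs]
  ring

theorem converges_of_not_cond [CompleteSpace E] {D : Set E} (hD : ∀ g ∈ D, ‖g‖ = 1)
    (htot : ∀ x : E, (∀ g ∈ D, ⟪x, g⟫_ℝ = 0) → x = 0)
    {t : ℕ → ℝ} (ht1 : ∀ n, t n ≤ 1) (hcond : ¬ Cond t)
    (r φ : ℕ → E) (hφ : ∀ n, φ n ∈ D) (hrun : ∀ n, t n * sig D (r n) ≤ |⟪r n, φ n⟫_ℝ|)
    (hr : ∀ n, r (n + 1) = r n - ⟪r n, φ n⟫_ℝ • φ n) :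
    Tendsto (fun n => ‖r n‖) atTop (𝓝 0) := by
  set a : ℕ → ℝ := fun n => |⟪r n, φ n⟫_ℝ| with ha
  have ha0 : ∀ n, 0 ≤ a n := fun n => abs_nonneg _
  have hsq : ∀ n, ‖r (n + 1)‖ ^ 2 = ‖r n‖ ^ 2 - a n ^ 2 := by
    intro n
    rw [hr n, norm_step _ _ (hD _ (hφ n)), ha, sq_abs]
  have hsum : ∀ n, ∑ j ∈ range n, a j ^ 2 = ‖r 0‖ ^ 2 - ‖r n‖ ^ 2 := by
    intro n
    induction n with
    | zero => simp
    | succ n ih => rw [sum_range_succ, ih, hsq n]; ring
  have hsummable : Summable fun n => a n ^ 2 := by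
    apply summable_of_sum_range_le (c := ‖r 0‖ ^ 2) (fun n => sq_nonneg _)
    intro n
    rw [hsum n]
    linarith [sq_nonneg ‖r n‖]
  have hanti : Antitone fun n => ‖r n‖ ^ 2 := by
    apply antitone_nat_of_succ_le
    intro n
    rw [hsq n]
    linarith [sq_nonneg (a n)]
  set θ : ℕ → ℝ := fun m => sig D (r m) * ∑ j ∈ range (m + 1), a j with hθ
  have hdiff : ∀ n m, n ≤ m → ‖r n - r m‖ ^ 2 ≤ ‖r n‖ ^ 2 - ‖r m‖ ^ 2 + 2 * θ m := by
    intro n m hnm
    have h1 : ∀ m, n ≤ m → r n - r m = ∑ j ∈ Ico n m, ⟪r j, φ j⟫_ℝ • φ j := by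
      intro m hnm
      induction m, hnm using Nat.le_induction with
      | base => simp
      | succ m hm ih =>
        rw [sum_Ico_succ_top hm, ← ih, hr m]
        abel
    have h2 : ‖r n - r m‖ ^ 2 = ‖r n‖ ^ 2 - ‖r m‖ ^ 2 - 2 * ⟪r n - r m, r m⟫_ℝ := by
      rw [norm_sub_sq_real, inner_sub_left, real_inner_self_eq_norm_sq]
      ring
    have h3 : |⟪r n - r m, r m⟫_ℝ| ≤ θ m := by
      rw [h1 m hnm, sum_inner]
      refine (abs_sum_le_sum_abs _ _).trans ?_
      rw [hθ]
      dsimp only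
      rw [mul_sum]
      calc ∑ i ∈ Ico n m, |⟪⟪r i, φ i⟫_ℝ • φ i, r m⟫_ℝ| ≤ ∑ i ∈ Ico n m, sig D (r m) * a i := by
            apply sum_le_sum
            intro i _
            rw [real_inner_smul_left, abs_mul, mul_comm, real_inner_comm]
            exact mul_le_mul_of_nonneg_right (le_sig hD _ (hφ i)) (abs_nonneg _)
        _ ≤ ∑ i ∈ range (m + 1), sig D (r m) * a i := by
            apply sum_le_sum_of_subset_of_nonneg
            · intro i hi
              rw [mem_Ico] at hi
              rw [mem_range]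
              omega
            · intro i _ _
              exact mul_nonneg (sig_nonneg _ _) (ha0 i)
    have h4 := (abs_le.mp h3).1
    rw [h2]
    linarith
  by_cases hcase : ∀ δ : ℝ, 0 < δ → ∀ N : ℕ, ∃ m, N ≤ m ∧ θ m < δ
  · -- the sequence is Cauchy
    obtain ⟨l, hl⟩ : ∃ l, Tendsto (fun n => ‖r n‖ ^ 2) atTop (𝓝 l) :=
      ⟨_, tendsto_atTop_ciInf hanti ⟨0, by rintro x ⟨n, rfl⟩; exact sq_nonneg _⟩⟩
    have hge : ∀ n, l ≤ ‖r n‖ ^ 2 := fun n => hanti.le_of_tendsto hl n
    have hcauchy : CauchySeq r := by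
      rw [Metric.cauchySeq_iff']
      intro ε hε
      have hδ : 0 < (ε / 4) ^ 2 := by positivity
      obtain ⟨N, hN⟩ := (hl.eventually_lt_const (by linarith : l < l + (ε / 4) ^ 2)).exists
      refine ⟨N, fun n hn => ?_⟩
      obtain ⟨m, hm, hθm⟩ := hcase ((ε / 4) ^ 2) hδ n
      have h1 : ∀ k, N ≤ k → k ≤ m → ‖r k - r m‖ < ε / 2 := by
        intro k hk1 hk2
        have h2 := hdiff k m hk2
        have h3 : ‖r k‖ ^ 2 ≤ ‖r N‖ ^ 2 := hanti hk1
        have h4 := hge m
        have h5 : ‖r k - r m‖ ^ 2 < (ε / 2) ^ 2 := by nlinarith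
        exact lt_of_pow_lt_pow_left₀ 2 (by positivity) h5
      have h2 := h1 n hn hm
      have h3 := h1 N le_rfl (hn.le.trans hm)
      rw [dist_eq_norm]
      calc ‖r n - r N‖ = ‖(r n - r m) - (r N - r m)‖ := by congr 1; abel
        _ ≤ ‖r n - r m‖ + ‖r N - r m‖ := norm_sub_le _ _
        _ < ε := by linarith
    obtain ⟨L, hL⟩ := cauchySeq_tendsto_of_complete hcauchy
    suffices hL0 : L = 0 by
      have := hL.norm
      rwa [hL0, norm_zero] at this
    by_cases hall : ∀ j, a j = 0
    · -- nothing moves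
      have hr0 : ∀ n, r n = r 0 := by
        intro n
        induction n with
        | zero => rfl
        | succ n ih =>
          have h1 : ⟪r n, φ n⟫_ℝ = 0 := abs_eq_zero.mp (hall n)
          rw [hr n, h1, zero_smul, sub_zero, ih]
      have hex : ∃ m, 0 < t m := by
        by_contra hcon
        push Not at hcon
        exact hcond ⟨fun _ => 0, fun _ => le_rfl, by simp, fun n => by
          simpa using hcon n⟩
      obtain ⟨m, hm⟩ := hex
      have h1 := hrun m
      have h2 : |⟪r m, φ m⟫_ℝ| = 0 := hall m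
      rw [h2] at h1
      have h3 : sig D (r m) ≤ 0 := by
        by_contra hcon
        push Not at hcon
        have := mul_pos hm hcon
        linarith
      have h4 : r m = 0 := by
        apply htot
        intro g hg
        have := (le_sig hD (r m) hg).trans h3
        exact abs_eq_zero.mp (le_antisymm this (abs_nonneg _))
      have h5 : ∀ n, r n = 0 := fun n => by rw [hr0 n, ← hr0 m, h4]
      have h6 : Tendsto r atTop (𝓝 0) := by
        have : r = fun _ => 0 := funext h5
        rw [this]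
        exact tendsto_const_nhds
      exact tendsto_nhds_unique hL h6
    · push Not at hall
      obtain ⟨j0, hj0⟩ := hall
      have hc : 0 < a j0 := lt_of_le_of_ne (ha0 j0) (Ne.symm hj0)
      apply htot
      intro g hg
      by_contra hcon
      have hκ : 0 < |⟪L, g⟫_ℝ| := abs_pos.mpr hcon
      have h1 : Tendsto (fun m => |⟪r m, g⟫_ℝ|) atTop (𝓝 |⟪L, g⟫_ℝ|) :=
        (hL.inner tendsto_const_nhds).abs
      have h2 := h1.eventually_const_lt (half_lt_self hκ)
      rw [eventually_atTop] at h2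
      obtain ⟨N, hN⟩ := h2
      obtain ⟨m, hm, hθm⟩ := hcase (|⟪L, g⟫_ℝ| / 2 * a j0) (by positivity) (max N j0)
      have h3 := hN m ((le_max_left _ _).trans hm)
      have h4 := le_sig hD (r m) hg
      have h5 : a j0 ≤ ∑ j ∈ range (m + 1), a j := by
        apply single_le_sum (fun i _ => ha0 i)
        rw [mem_range]
        have := (le_max_right N j0).trans hm
        omega
      have h6 : |⟪L, g⟫_ℝ| / 2 * a j0 ≤ θ m :=
        mul_le_mul (by linarith) h5 hc.le (sig_nonneg _ _)
      linarith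
  · exfalso
    push Not at hcase
    obtain ⟨δ, hδ, N, hN⟩ := hcase
    apply hcond
    have hsd : 0 < Real.sqrt δ := Real.sqrt_pos.mpr hδ
    refine ⟨fun n => if n < N then max (a n / Real.sqrt δ) 1 else a n / Real.sqrt δ, ?_, ?_, ?_⟩
    · intro n
      dsimp only
      split_ifs
      · exact le_max_of_le_right zero_le_one
      · exact div_nonneg (ha0 n) hsd.le
    · have h1 : Summable fun n => (a n / Real.sqrt δ) ^ 2 := by
        simp only [div_pow]
        exact hsummable.div_const _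
      refine (summable_nat_add_iff N).mp ?_
      have h2 := (summable_nat_add_iff N).mpr h1
      refine h2.congr ?_
      intro n
      dsimp only
      rw [if_neg (by omega)]
    · intro n
      dsimp only
      have hnn : ∀ j, a j / Real.sqrt δ ≤
          (if j < N then max (a j / Real.sqrt δ) 1 else a j / Real.sqrt δ) := by
        intro j
        split_ifs
        · exact le_max_left _ _
        · exact le_rfl
      have hnn0 : ∀ j, 0 ≤ (if j < N then max (a j / Real.sqrt δ) 1 else a j / Real.sqrt δ) :=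
        fun j => (div_nonneg (ha0 j) hsd.le).trans (hnn j)
      by_cases hn : n < N
      · have h1 : 1 ≤ (if n < N then max (a n / Real.sqrt δ) 1 else a n / Real.sqrt δ) := by
          rw [if_pos hn]; exact le_max_right _ _
        have h2 : 1 ≤ ∑ j ∈ range (n + 1),
            (if j < N then max (a j / Real.sqrt δ) 1 else a j / Real.sqrt δ) :=
          h1.trans (single_le_sum (f := fun j => if j < N then max (a j / Real.sqrt δ) 1 else
            a j / Real.sqrt δ) (fun i _ => hnn0 i) (mem_range.mpr (Nat.lt_succ_self n)))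
        calc t n ≤ 1 * 1 := by rw [one_mul]; exact ht1 n
          _ ≤ _ := mul_le_mul h1 h2 zero_le_one (by linarith)
      · rw [if_neg hn]
        have h0 : 0 ≤ ∑ j ∈ range (n + 1), a j := sum_nonneg fun i _ => ha0 i
        have h1 : δ ≤ sig D (r n) * ∑ j ∈ range (n + 1), a j := hN n (by omega)
        have h2 : ∑ j ∈ range (n + 1), a j / Real.sqrt δ ≤ ∑ j ∈ range (n + 1),
            (if j < N then max (a j / Real.sqrt δ) 1 else a j / Real.sqrt δ) :=
          sum_le_sum fun j _ => hnn j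
        rw [← sum_div] at h2
        have h3 : t n * δ ≤ a n * ∑ j ∈ range (n + 1), a j := by
          rcases le_or_gt (t n) 0 with h4 | h4
          · have : t n * δ ≤ 0 := mul_nonpos_of_nonpos_of_nonneg h4 hδ.le
            exact this.trans (mul_nonneg (ha0 n) h0)
          · calc t n * δ ≤ t n * (sig D (r n) * ∑ j ∈ range (n + 1), a j) :=
                  mul_le_mul_of_nonneg_left h1 h4.le
              _ = (t n * sig D (r n)) * ∑ j ∈ range (n + 1), a j := by ring
              _ ≤ _ := mul_le_mul_of_nonneg_right (hrun n) h0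
        calc t n ≤ (a n * ∑ j ∈ range (n + 1), a j) / δ := by
              rw [le_div_iff₀ hδ]; exact h3
          _ = a n / Real.sqrt δ * ((∑ j ∈ range (n + 1), a j) / Real.sqrt δ) := by
              rw [div_mul_div_comm, Real.mul_self_sqrt hδ.le]
          _ ≤ _ := mul_le_mul_of_nonneg_left h2 (div_nonneg (ha0 n) hsd.le)

end Pool.Agent.H66R3.WB
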