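import Mathlib

/-! Real inequalities for the singular value game. -/

set_option autoImplicit false

namespace Pool.Agent.H66R3.WB

/-- The potential of one singular value. -/
noncomputable def h (L y : ℝ) : ℝ := max 0 (6 * y ^ 2 / L - 3 * y)

lemma h_nonneg (L y : ℝ) : 0 ≤ h L y := le_max_left _ _

lemma h_zero (L : ℝ) : h L 0 = 0 := by simp [h]

lemma h_of_ge {L y : ℝ} (hL : 0 < L) (hy : L ≤ 2 * y) : h L y = 6 * y ^ 2 / L - 3 * y := by
  unfold h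
  apply max_eq_right
  rw [sub_nonneg, le_div_iff₀ hL]
  have : 0 < y := by linarith
  nlinarith

lemma h_mono {L y y' : ℝ} (hL : 0 < L) (hy : 0 ≤ y) (hyy : y ≤ y') : h L y ≤ h L y' := by
  rcases le_or_gt L (2 * y) with h1 | h1
  · rw [h_of_ge hL h1, h_of_ge hL (by linarith)]
    have h2 : 6 * y' ^ 2 / L - 3 * y' - (6 * y ^ 2 / L - 3 * y) =
        (y' - y) * (6 * (y' + y) / L - 3) := by
      field_simp
      ring
    have h3 : 3 ≤ 6 * (y' + y) / L := by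
      rw [le_div_iff₀ hL]; linarith
    have h4 : 0 ≤ (y' - y) * (6 * (y' + y) / L - 3) :=
      mul_nonneg (by linarith) (by linarith)
    linarith
  · have : h L y = 0 := by
      unfold h
      apply max_eq_left
      rw [sub_nonpos, div_le_iff₀ hL]
      nlinarith
    rw [this]
    exact h_nonneg _ _

/-- After a kill inside the working block. -/
lemma real_kill {L x b c : ℝ} (hL : 0 < L) (hLx : L ≤ x) (hc : 0 ≤ c) (hbc : x / 4 ≤ b - c)
    (h1 : b ^ 2 + c ^ 2 ≤ x ^ 2) (h2 : 15 / 16 * x ^ 2 ≤ b ^ 2 + c ^ 2) :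
    h L c ≤ 6 * x ^ 2 / L - 4 * x + (b - c) := by
  have hx : 0 < x := lt_of_lt_of_le hL hLx
  have hb : 3 / 4 * x ≤ b := by
    by_contra hcon
    push Not at hcon
    have h3 : c < x / 2 := by linarith
    have h4 : 0 ≤ b := by linarith
    nlinarith
  unfold h
  apply max_le
  · have : 6 * x ≤ 6 * x ^ 2 / L := by
      rw [le_div_iff₀ hL]; nlinarith
    linarith
  · have h3 : 6 * x ^ 2 / L - 6 * c ^ 2 / L = 6 * (x ^ 2 - c ^ 2) / L := by ring
    have h4 : 6 * b ^ 2 / x ≤ 6 * (x ^ 2 - c ^ 2) / L := by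
      rw [div_le_div_iff₀ hx hL]
      have : b ^ 2 ≤ x ^ 2 - c ^ 2 := by linarith
      have h5 : 0 ≤ b ^ 2 := sq_nonneg b
      nlinarith
    have h5 : 4 * x - b ≤ 6 * b ^ 2 / x := by
      rw [le_div_iff₀ hx]
      nlinarith
    linarith

/-- Rebasing when the working block is nearly balanced. -/
lemma real_rebase {L x b c : ℝ} (hL : 0 < L) (hLx : L ≤ x) (h0 : 0 ≤ b - c)
    (hc : 0 ≤ c) (hbc : b - c < x / 4)
    (h1 : b ^ 2 + c ^ 2 ≤ x ^ 2) (h2 : 15 / 16 * x ^ 2 ≤ b ^ 2 + c ^ 2) :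
    h L b + h L c ≤ 6 * x ^ 2 / L - 4 * x + (b - c) := by
  have hx : 0 < x := lt_of_lt_of_le hL hLx
  have h3 : 4 / 3 * x ≤ b + c := by
    by_contra hcon
    push Not at hcon
    have h4 : (b + c) ^ 2 + (b - c) ^ 2 = 2 * (b ^ 2 + c ^ 2) := by ring
    have h5 : (b + c) ^ 2 ≤ (4 / 3 * x) ^ 2 := by
      apply pow_le_pow_left₀ (by linarith) hcon.le
    have h6 : (b - c) ^ 2 ≤ (x / 4) ^ 2 := pow_le_pow_left₀ h0 hbc.le 2
    nlinarith [sq_nonneg x, mul_pos hx hx]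
  have h4 : x / 2 ≤ c := by linarith
  rw [h_of_ge hL (by linarith), h_of_ge hL (by linarith)]
  have h5 : 6 * x ^ 2 / L - (6 * b ^ 2 / L + 6 * c ^ 2 / L) =
      6 * (x ^ 2 - (b ^ 2 + c ^ 2)) / L := by ring
  have h6 : 0 ≤ 6 * (x ^ 2 - (b ^ 2 + c ^ 2)) / L := by
    apply div_nonneg _ hL.le
    linarith
  linarith

/-- The scalar form of the pair move. -/
lemma pair_scalar (z w α : ℝ) (hz : 0 < z) (hα : |α - w| ≤ z) :
    ∃ C S c s z' : ℝ, C ^ 2 + S ^ 2 = 1 ∧ c ^ 2 + s ^ 2 = 1 ∧ 0 ≤ z' ∧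
      z' ^ 2 = z ^ 2 + α * w - 3 / 4 * α ^ 2 ∧
      (z + w) * C ^ 2 - (z - w) * S ^ 2 = α ∧
      z + w - α * C ^ 2 = (z' + (w - α / 2)) * c ^ 2 - (z' - (w - α / 2)) * s ^ 2 ∧
      α * (C * S) = -(2 * z' * (c * s)) ∧
      z - w + α * S ^ 2 = -((z' + (w - α / 2)) * s ^ 2) + (z' - (w - α / 2)) * c ^ 2 := by
  obtain ⟨η, hη⟩ : ∃ η : ℝ, z * Real.cos η = α - w := by
    refine ⟨Real.arccos ((α - w) / z), ?_⟩
    rw [abs_le] at hα
    rw [Real.cos_arccos, mul_div_cancel₀ _ hz.ne']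
    · rw [le_div_iff₀ hz]; linarith
    · rw [div_le_iff₀ hz]; linarith
  set ζ : ℂ := ⟨z - α / 2 * Real.cos η, -(α / 2 * Real.sin η)⟩ with hζ
  have e1 : ‖ζ‖ * Real.cos (Complex.arg ζ) = z - α / 2 * Real.cos η := Complex.norm_mul_cos_arg ζ
  have e2 : ‖ζ‖ * Real.sin (Complex.arg ζ) = -(α / 2 * Real.sin η) := Complex.norm_mul_sin_arg ζ
  set ψ := Complex.arg ζ with hψ
  have c1 : Real.cos η = Real.cos (η / 2) ^ 2 - Real.sin (η / 2) ^ 2 := by
    rw [← Real.cos_two_mul', mul_div_cancel₀ _ two_ne_zero]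
  have s1 : Real.sin η = 2 * Real.sin (η / 2) * Real.cos (η / 2) := by
    rw [← Real.sin_two_mul, mul_div_cancel₀ _ two_ne_zero]
  have c2 : Real.cos ψ = Real.cos (ψ / 2) ^ 2 - Real.sin (ψ / 2) ^ 2 := by
    rw [← Real.cos_two_mul', mul_div_cancel₀ _ two_ne_zero]
  have s2 : Real.sin ψ = 2 * Real.sin (ψ / 2) * Real.cos (ψ / 2) := by
    rw [← Real.sin_two_mul, mul_div_cancel₀ _ two_ne_zero]
  have u1 := Real.cos_sq_add_sin_sq (η / 2)
  have u2 := Real.cos_sq_add_sin_sq (ψ / 2)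
  have u3 := Real.cos_sq_add_sin_sq η
  have u4 := Real.cos_sq_add_sin_sq ψ
  refine ⟨Real.cos (η / 2), Real.sin (η / 2), Real.cos (ψ / 2), Real.sin (ψ / 2), ‖ζ‖, u1, u2,
    norm_nonneg _, ?_, ?_, ?_, ?_, ?_⟩
  · have : ‖ζ‖ ^ 2 = (‖ζ‖ * Real.cos ψ) ^ 2 + (‖ζ‖ * Real.sin ψ) ^ 2 := by
      linear_combination (-‖ζ‖ ^ 2) * u4
    rw [this, e1, e2]
    linear_combination (-α) * hη + (α ^ 2 / 4) * u3
  · rw [c1] at hη
    linear_combination hη + w * u1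
  · rw [c1, c2] at e1
    linear_combination (-1 : ℝ) * e1 - (w - α / 2) * u2 + (-α / 2) * u1
  · rw [s1, s2] at e2
    linear_combination e2
  · rw [c1, c2] at e1
    linear_combination (-1 : ℝ) * e1 + (w - α / 2) * u2 + (α / 2) * u1

end Pool.Agent.H66R3.WB
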