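import Mathlib
import Pool.Agent.H66R3.WB.Real

/-! The singular value game: pair moves, kills, rebasing, in an abstract tensor setting. -/

set_option autoImplicit false

open scoped InnerProductSpace
open Finset

namespace Pool.Agent.H66R3.WB

section Rot

variable {K : Type*} [NormedAddCommGroup K] [InnerProductSpace ℝ K]

/-- Rotate the members `p` and `q` of a family. -/
noncomputable def rot (u : ℕ → K) (p q : ℕ) (c s : ℝ) : ℕ → K := fun i =>
  if i = p then c • u p + s • u q else if i = q then -s • u p + c • u q else u i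

lemma rot_p (u : ℕ → K) (p q : ℕ) (c s : ℝ) : rot u p q c s p = c • u p + s • u q := by
  simp [rot]

lemma rot_q (u : ℕ → K) {p q : ℕ} (hpq : p ≠ q) (c s : ℝ) :
    rot u p q c s q = -s • u p + c • u q := by
  simp [rot, hpq.symm]

lemma rot_other (u : ℕ → K) {p q i : ℕ} (c s : ℝ) (h1 : i ≠ p) (h2 : i ≠ q) :
    rot u p q c s i = u i := by
  simp [rot, h1, h2]

lemma rot_orthonormal {u : ℕ → K} (hu : Orthonormal ℝ u) {p q : ℕ} (hpq : p ≠ q) {c s : ℝ}
    (hcs : c ^ 2 + s ^ 2 = 1) : Orthonormal ℝ (rot u p q c s) := by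
  rw [orthonormal_iff_ite] at hu ⊢
  have huu : ∀ i, ⟪u i, u i⟫_ℝ = 1 := fun i => by rw [hu i i, if_pos rfl]
  have hne : ∀ i j, i ≠ j → ⟪u i, u j⟫_ℝ = 0 := fun i j h => by rw [hu i j, if_neg h]
  intro i j
  by_cases hip : i = p
  · subst hip
    rw [rot_p]
    by_cases hjp : j = i
    · subst hjp
      rw [rot_p, if_pos rfl]
      simp only [inner_add_left, inner_add_right, real_inner_smul_left, real_inner_smul_right,
        huu, hne j q hpq, hne q j hpq.symm]
      linear_combination hcs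
    by_cases hjq : j = q
    · subst hjq
      rw [rot_q u hpq, if_neg hpq]
      simp only [inner_add_left, inner_add_right, real_inner_smul_left, real_inner_smul_right,
        huu, hne i j hpq, hne j i hpq.symm]
      ring
    · rw [rot_other u c s hjp hjq, if_neg (fun h => hjp h.symm)]
      simp only [inner_add_left, real_inner_smul_left,
        hne i j (fun h => hjp h.symm), hne q j (fun h => hjq h.symm)]
      ring
  by_cases hiq : i = q
  · subst hiq
    rw [rot_q u hpq]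
    by_cases hjp : j = p
    · subst hjp
      rw [rot_p, if_neg hip]
      simp only [inner_add_left, inner_add_right, real_inner_smul_left, real_inner_smul_right,
        huu, hne i j hip, hne j i hpq]
      ring
    by_cases hjq : j = i
    · subst hjq
      rw [rot_q u hpq, if_pos rfl]
      simp only [inner_add_left, inner_add_right, real_inner_smul_left, real_inner_smul_right,
        huu, hne p j hpq, hne j p hpq.symm]
      linear_combination hcs
    · rw [rot_other u c s hjp hjq, if_neg (fun h => hjq h.symm)]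
      simp only [inner_add_left, real_inner_smul_left,
        hne p j (fun h => hjp h.symm), hne i j (fun h => hjq h.symm)]
      ring
  · rw [rot_other u c s hip hiq]
    by_cases hjp : j = p
    · subst hjp
      rw [rot_p, if_neg hip]
      simp only [inner_add_right, real_inner_smul_right, hne i j hip, hne i q hiq]
      ring
    by_cases hjq : j = q
    · subst hjq
      rw [rot_q u hpq, if_neg hiq]
      simp only [inner_add_right, real_inner_smul_right, hne i j hiq, hne i p hip]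
      ring
    · rw [rot_other u c s hjp hjq, hu i j]

end Rot

section Game

variable {K H : Type*} [NormedAddCommGroup K] [InnerProductSpace ℝ K]
  [NormedAddCommGroup H] [InnerProductSpace ℝ H]

/-- `T` multiplies inner products. -/
def IsTens (T : K →ₗ[ℝ] K →ₗ[ℝ] H) : Prop :=
  ∀ a b c d : K, ⟪T a b, T c d⟫_ℝ = ⟪a, c⟫_ℝ * ⟪b, d⟫_ℝ

variable {T : K →ₗ[ℝ] K →ₗ[ℝ] H}

lemma IsTens.norm (hT : IsTens T) (a b : K) : ‖T a b‖ = ‖a‖ * ‖b‖ := by
  have h1 : ‖T a b‖ ^ 2 = (‖a‖ * ‖b‖) ^ 2 := by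
    rw [← real_inner_self_eq_norm_sq, hT, real_inner_self_eq_norm_sq, real_inner_self_eq_norm_sq]
    ring
  have h2 := abs_eq_abs.mpr (sq_eq_sq_iff_eq_or_eq_neg.mp h1)
  rwa [abs_of_nonneg (norm_nonneg _), abs_of_nonneg (by positivity)] at h2

/-- Upper bound for the inner products of a sum with elementary tensors. -/
lemma sup_bound (hT : IsTens T) {u v : ℕ → K} (hu : Orthonormal ℝ u) (hv : Orthonormal ℝ v)
    (y : ℕ → ℝ) (s : Finset ℕ) (X : ℝ) (hX : 0 ≤ X) (hy : ∀ i ∈ s, 0 ≤ y i ∧ y i ≤ X) (a b : K) :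
    |⟪∑ i ∈ s, y i • T (u i) (v i), T a b⟫_ℝ| ≤ X * (‖a‖ * ‖b‖) := by
  have h1 : ⟪∑ i ∈ s, y i • T (u i) (v i), T a b⟫_ℝ = ∑ i ∈ s, y i * (⟪u i, a⟫_ℝ * ⟪v i, b⟫_ℝ) := by
    rw [sum_inner]
    apply sum_congr rfl
    intro i hi
    rw [real_inner_smul_left, hT]
  rw [h1]
  have h2 : |∑ i ∈ s, y i * (⟪u i, a⟫_ℝ * ⟪v i, b⟫_ℝ)| ≤ X * ∑ i ∈ s, |⟪u i, a⟫_ℝ| * |⟪v i, b⟫_ℝ| := by
    refine (abs_sum_le_sum_abs _ _).trans ?_
    rw [mul_sum]
    apply sum_le_sum
    intro i hi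
    rw [abs_mul, abs_mul, abs_of_nonneg (hy i hi).1]
    exact mul_le_mul_of_nonneg_right (hy i hi).2 (by positivity)
  refine h2.trans (mul_le_mul_of_nonneg_left ?_ hX)
  have h3 : (∑ i ∈ s, |⟪u i, a⟫_ℝ| * |⟪v i, b⟫_ℝ|) ^ 2 ≤ (‖a‖ * ‖b‖) ^ 2 := by
    refine (sum_mul_sq_le_sq_mul_sq _ _ _).trans ?_
    rw [mul_pow]
    have e1 : ∑ i ∈ s, |⟪u i, a⟫_ℝ| ^ 2 ≤ ‖a‖ ^ 2 := by
      have := hu.sum_inner_products_le (s := s) a
      simpa [Real.norm_eq_abs] using this
    have e2 : ∑ i ∈ s, |⟪v i, b⟫_ℝ| ^ 2 ≤ ‖b‖ ^ 2 := by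
      have := hv.sum_inner_products_le (s := s) b
      simpa [Real.norm_eq_abs] using this
    exact mul_le_mul e1 e2 (sum_nonneg fun i _ => by positivity) (by positivity)
  exact le_of_sq_le_sq h3 (by positivity)

/-- The state between blocks. -/
def Pre (T : K →ₗ[ℝ] K →ₗ[ℝ] H) (f : H) (A G X : ℝ) : Prop :=
  ∃ (u v : ℕ → K) (y : ℕ → ℝ) (s : Finset ℕ), Orthonormal ℝ u ∧ Orthonormal ℝ v ∧
    f = ∑ i ∈ s, y i • T (u i) (v i) ∧ (∀ i ∈ s, 0 ≤ y i ∧ y i ≤ X) ∧
    ∀ L : ℝ, 0 < L → L ≤ X → A + ∑ i ∈ s, h L (y i) ≤ (6 + 16 * G) / L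

/-- The state inside a block, with working pair `p`, `q`. -/
def Inv (T : K →ₗ[ℝ] K →ₗ[ℝ] H) (f : H) (A G x : ℝ) : Prop :=
  ∃ (u v : ℕ → K) (y : ℕ → ℝ) (s : Finset ℕ) (p q : ℕ) (b c : ℝ),
    Orthonormal ℝ u ∧ Orthonormal ℝ v ∧ p ∉ s ∧ q ∉ s ∧ p ≠ q ∧
    f = ∑ i ∈ s, y i • T (u i) (v i) + (b • T (u p) (v p) + c • T (u q) (v q)) ∧
    (∀ i ∈ s, 0 ≤ y i ∧ y i ≤ x) ∧ 0 ≤ c ∧ x / 4 ≤ b - c ∧ b - c ≤ x ∧
    b ^ 2 + c ^ 2 ≤ x ^ 2 ∧ x ^ 2 - x / 16 * (x - (b - c)) ≤ b ^ 2 + c ^ 2 ∧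
    ∀ L : ℝ, 0 < L → L ≤ x →
      A + (6 * x ^ 2 / L - 4 * x + (b - c)) + ∑ i ∈ s, h L (y i) ≤ (6 + 16 * G) / L

lemma Pre.mono {f : H} {A G X x : ℝ} (hP : Pre T f A G X)
    (hx : x ≤ X) (hy : ∀ (u v : ℕ → K) (y : ℕ → ℝ) (s : Finset ℕ), Orthonormal ℝ u →
      Orthonormal ℝ v → f = ∑ i ∈ s, y i • T (u i) (v i) → ∀ i ∈ s, y i ≤ x) : Pre T f A G x := by
  obtain ⟨u, v, y, s, hu, hv, hf, h1, h2⟩ := hP
  exact ⟨u, v, y, s, hu, hv, hf, fun i hi => ⟨(h1 i hi).1, hy u v y s hu hv hf i hi⟩,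
    fun L hL hLx => h2 L hL (hLx.trans hx)⟩

/-- Start a new block. -/
lemma rebase {f : H} {A G X : ℝ} (hP : Pre T f A G X) (hf : f ≠ 0) :
    ∃ x, 0 < x ∧ x ≤ X ∧ Inv T f A G x := by
  obtain ⟨u, v, y, s, hu, hv, hfs, hy, hpot⟩ := hP
  have hs : s.Nonempty := by
    rw [nonempty_iff_ne_empty]
    rintro rfl
    exact hf (by simpa using hfs)
  obtain ⟨p, hp, hmax⟩ := exists_max_image s y hs
  have hxpos : 0 < y p := by
    rcases (hy p hp).1.lt_or_eq with h1 | h1
    · exact h1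
    · exfalso
      apply hf
      rw [hfs]
      apply sum_eq_zero
      intro i hi
      have h2 : y i = 0 := le_antisymm (by rw [h1]; exact hmax i hi) (hy i hi).1
      rw [h2, zero_smul]
  obtain ⟨q, hq⟩ := Infinite.exists_notMem_finset s
  have hpq : p ≠ q := fun h => hq (h ▸ hp)
  refine ⟨y p, hxpos, (hy p hp).2, u, v, y, s.erase p, p, q, y p, 0, hu, hv, notMem_erase _ _,
    fun h => hq (mem_of_mem_erase h), hpq, ?_, ?_, le_refl _, by linarith, by linarith, by simp,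
    by simp, ?_⟩
  · rw [zero_smul, add_zero, hfs, sum_erase_add s _ hp]
  · intro i hi
    exact ⟨(hy i (mem_of_mem_erase hi)).1, hmax i (mem_of_mem_erase hi)⟩
  · intro L hL hLx
    have h1 := hpot L hL (hLx.trans (hy p hp).2)
    rw [← sum_erase_add s _ hp, h_of_ge hL (by linarith)] at h1
    linarith

lemma inv_bound {f : H} {A G x : ℝ} (hI : Inv T f A G x) (hx : 0 < x) :
    (A + 2 * x) * x ≤ 6 + 16 * G := by
  obtain ⟨u, v, y, s, p, q, b, c, hu, hv, hp, hq, hpq, hf, hy, hc, h1, h2, h3, h4, hpot⟩ := hI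
  have h5 := hpot x hx le_rfl
  have h6 : 0 ≤ ∑ i ∈ s, h x (y i) := sum_nonneg fun i _ => h_nonneg _ _
  have h7 : 6 * x ^ 2 / x = 6 * x := by field_simp
  rw [h7] at h5
  rw [← le_div_iff₀ hx]
  linarith

/-- Sum over `s` plus the pair, as one sum. -/
lemma two_insert (s : Finset ℕ) {p q : ℕ} (hp : p ∉ s) (hq : q ∉ s) (hpq : p ≠ q)
    (u v : ℕ → K) (y : ℕ → ℝ) (b c : ℝ) :
    ∑ i ∈ s, y i • T (u i) (v i) + (b • T (u p) (v p) + c • T (u q) (v q)) =
      ∑ i ∈ insert p (insert q s),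
        (Function.update (Function.update y p b) q c) i • T (u i) (v i) := by
  have hp' : p ∉ insert q s := by
    rw [mem_insert]; push Not; exact ⟨hpq, hp⟩
  rw [sum_insert hp', sum_insert hq, Function.update_self, Function.update_of_ne hpq,
    Function.update_self]
  have : ∑ i ∈ s, (Function.update (Function.update y p b) q c) i • T (u i) (v i) =
      ∑ i ∈ s, y i • T (u i) (v i) := by
    apply sum_congr rfl
    intro i hi
    rw [Function.update_of_ne (fun e : i = q => hq (e ▸ hi)),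
      Function.update_of_ne (fun e : i = p => hp (e ▸ hi))]
  rw [this]
  abel

lemma two_insert_h (s : Finset ℕ) {p q : ℕ} (hp : p ∉ s) (hq : q ∉ s) (hpq : p ≠ q)
    (y : ℕ → ℝ) (b c L : ℝ) :
    ∑ i ∈ insert p (insert q s), h L ((Function.update (Function.update y p b) q c) i) =
      h L b + h L c + ∑ i ∈ s, h L (y i) := by
  have hp' : p ∉ insert q s := by
    rw [mem_insert]; push Not; exact ⟨hpq, hp⟩
  rw [sum_insert hp', sum_insert hq, Function.update_self, Function.update_of_ne hpq,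
    Function.update_self]
  have : ∑ i ∈ s, h L ((Function.update (Function.update y p b) q c) i) =
      ∑ i ∈ s, h L (y i) := by
    apply sum_congr rfl
    intro i hi
    rw [Function.update_of_ne (fun e : i = q => hq (e ▸ hi)),
      Function.update_of_ne (fun e : i = p => hp (e ▸ hi))]
  rw [this]
  ring

lemma two_insert_bd (s : Finset ℕ) {p q : ℕ} (hp : p ∉ s) (hq : q ∉ s) (hpq : p ≠ q)
    (y : ℕ → ℝ) (b c x : ℝ) (hy : ∀ i ∈ s, 0 ≤ y i ∧ y i ≤ x) (hb : 0 ≤ b ∧ b ≤ x)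
    (hc : 0 ≤ c ∧ c ≤ x) : ∀ i ∈ insert p (insert q s),
      0 ≤ (Function.update (Function.update y p b) q c) i ∧
        (Function.update (Function.update y p b) q c) i ≤ x := by
  intro i hi
  by_cases hiq : i = q
  · subst hiq; rw [Function.update_self]; exact hc
  rw [Function.update_of_ne hiq]
  by_cases hip : i = p
  · subst hip; rw [Function.update_self]; exact hb
  rw [Function.update_of_ne hip]
  rw [mem_insert, mem_insert] at hi
  exact hy i ((hi.resolve_left hip).resolve_left hiq)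

end Game

end Pool.Agent.H66R3.WB
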