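import Mathlib
import Pool.Agent.H66R3.WB.Game

/-! The tensor product structure of `L_2([0,1]^2)`. -/

set_option autoImplicit false

open scoped InnerProductSpace
open MeasureTheory Filter Topology

namespace Pool.Agent.H66R3.WB

/-- `L_2([0,1])`. -/
abbrev K1 : Type := Lp ℝ 2 (volume : Measure unitInterval)

/-- `L_2([0,1]^2)`. -/
abbrev H2 : Type := Lp ℝ 2 (volume : Measure (unitInterval × unitInterval))

lemma vol_prod : (volume : Measure (unitInterval × unitInterval)) =
    (volume : Measure unitInterval).prod (volume : Measure unitInterval) := rfl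

lemma memLp_tensor {f g : unitInterval → ℝ} (hf : MemLp f 2 (volume : Measure unitInterval))
    (hg : MemLp g 2 (volume : Measure unitInterval)) :
    MemLp (fun x : unitInterval × unitInterval => f x.1 * g x.2) 2 volume := by
  rw [vol_prod]
  have h1 : AEStronglyMeasurable (fun x : unitInterval × unitInterval => f x.1 * g x.2)
      ((volume : Measure unitInterval).prod volume) :=
    (hf.1.comp_fst).mul (hg.1.comp_snd)
  rw [memLp_two_iff_integrable_sq h1]
  have h2 := (memLp_two_iff_integrable_sq hf.1).mp hf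
  have h3 := (memLp_two_iff_integrable_sq hg.1).mp hg
  have h4 := h2.mul_prod h3
  refine h4.congr (Eventually.of_forall fun x => ?_)
  dsimp only
  ring

lemma ae_fst {f g : unitInterval → ℝ} (h : f =ᵐ[volume] g) :
    (fun x : unitInterval × unitInterval => f x.1) =ᵐ[volume] fun x => g x.1 :=
  (Measure.quasiMeasurePreserving_fst (μ := (volume : Measure unitInterval))
    (ν := (volume : Measure unitInterval))).ae_eq_comp h

lemma ae_snd {f g : unitInterval → ℝ} (h : f =ᵐ[volume] g) :
    (fun x : unitInterval × unitInterval => f x.2) =ᵐ[volume] fun x => g x.2 :=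
  (Measure.quasiMeasurePreserving_snd (μ := (volume : Measure unitInterval))
    (ν := (volume : Measure unitInterval))).ae_eq_comp h

/-- The elementary tensor of two elements of `L_2([0,1])`. -/
noncomputable def tens (u v : K1) : H2 := (memLp_tensor (Lp.memLp u) (Lp.memLp v)).toLp

lemma tens_coe (u v : K1) : (tens u v : unitInterval × unitInterval → ℝ) =ᵐ[volume]
    fun x => (u : unitInterval → ℝ) x.1 * (v : unitInterval → ℝ) x.2 :=
  MemLp.coeFn_toLp _

lemma tens_add_left (u u' v : K1) : tens (u + u') v = tens u v + tens u' v := by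
  apply Lp.ext
  filter_upwards [tens_coe (u + u') v, tens_coe u v, tens_coe u' v,
    Lp.coeFn_add (tens u v) (tens u' v), ae_fst (Lp.coeFn_add u u')] with x h1 h2 h3 h4 h5
  rw [h1, h4, Pi.add_apply, h2, h3, h5, Pi.add_apply]
  ring

lemma tens_add_right (u v v' : K1) : tens u (v + v') = tens u v + tens u v' := by
  apply Lp.ext
  filter_upwards [tens_coe u (v + v'), tens_coe u v, tens_coe u v',
    Lp.coeFn_add (tens u v) (tens u v'), ae_snd (Lp.coeFn_add v v')] with x h1 h2 h3 h4 h5
  rw [h1, h4, Pi.add_apply, h2, h3, h5, Pi.add_apply]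
  ring

lemma tens_smul_left (c : ℝ) (u v : K1) : tens (c • u) v = c • tens u v := by
  apply Lp.ext
  filter_upwards [tens_coe (c • u) v, tens_coe u v,
    Lp.coeFn_smul c (tens u v), ae_fst (Lp.coeFn_smul c u)] with x h1 h2 h4 h5
  rw [h1, h4, Pi.smul_apply, h2, h5, Pi.smul_apply, smul_eq_mul, smul_eq_mul]
  ring

lemma tens_smul_right (c : ℝ) (u v : K1) : tens u (c • v) = c • tens u v := by
  apply Lp.ext
  filter_upwards [tens_coe u (c • v), tens_coe u v,
    Lp.coeFn_smul c (tens u v), ae_snd (Lp.coeFn_smul c v)] with x h1 h2 h4 h5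
  rw [h1, h4, Pi.smul_apply, h2, h5, Pi.smul_apply, smul_eq_mul, smul_eq_mul]
  ring

/-- The bilinear map. -/
noncomputable def TT : K1 →ₗ[ℝ] K1 →ₗ[ℝ] H2 :=
  LinearMap.mk₂ ℝ tens tens_add_left tens_smul_left tens_add_right tens_smul_right

lemma TT_apply (u v : K1) : TT u v = tens u v := rfl

lemma TT_coe (u v : K1) : (TT u v : unitInterval × unitInterval → ℝ) =ᵐ[volume]
    fun x => (u : unitInterval → ℝ) x.1 * (v : unitInterval → ℝ) x.2 := tens_coe u v

lemma isTens_TT : IsTens TT := by
  intro a b c d
  rw [L2.inner_def, L2.inner_def, L2.inner_def]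
  refine Eq.trans ?_ (integral_prod_mul (μ := (volume : Measure unitInterval))
    (ν := (volume : Measure unitInterval)) (fun x => ⟪(a : unitInterval → ℝ) x, c x⟫_ℝ)
    (fun x => ⟪(b : unitInterval → ℝ) x, d x⟫_ℝ))
  rw [← vol_prod]
  apply integral_congr_ae
  filter_upwards [TT_coe a b, TT_coe c d] with x h1 h2
  rw [h1, h2]
  simp only [RCLike.inner_apply, conj_trivial]
  ring

/-- Rectangles are enough. -/
lemma total_rect (g : H2) (hg : ∀ u v : K1, ⟪TT u v, g⟫_ℝ = 0) : g = 0 := by
  have hint : Integrable (g : unitInterval × unitInterval → ℝ) volume :=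
    (Lp.memLp g).integrable one_le_two
  have hrect : ∀ (A B : Set unitInterval), MeasurableSet A → MeasurableSet B →
      ∫ x in A ×ˢ B, (g : unitInterval × unitInterval → ℝ) x = 0 := by
    intro A B hA hB
    have h1 := hg (indicatorConstLp 2 hA (measure_ne_top _ A) (1 : ℝ))
      (indicatorConstLp 2 hB (measure_ne_top _ B) (1 : ℝ))
    have h2 : TT (indicatorConstLp 2 hA (measure_ne_top _ A) (1 : ℝ))
        (indicatorConstLp 2 hB (measure_ne_top _ B) (1 : ℝ)) =
        indicatorConstLp 2 (hA.prod hB) (measure_ne_top _ (A ×ˢ B)) (1 : ℝ) := by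
      apply Lp.ext
      filter_upwards [TT_coe (indicatorConstLp 2 hA (measure_ne_top _ A) (1 : ℝ))
        (indicatorConstLp 2 hB (measure_ne_top _ B) (1 : ℝ)),
        indicatorConstLp_coeFn (p := 2) (hs := hA.prod hB) (hμs := measure_ne_top volume (A ×ˢ B))
          (c := (1 : ℝ)),
        ae_fst (indicatorConstLp_coeFn (p := 2) (hs := hA) (hμs := measure_ne_top volume A)
          (c := (1 : ℝ))),
        ae_snd (indicatorConstLp_coeFn (p := 2) (hs := hB) (hμs := measure_ne_top volume B)
          (c := (1 : ℝ)))] with x h1 h2 h3 h4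
      rw [h1, h2, h3, h4]
      by_cases hxA : x.1 ∈ A <;> by_cases hxB : x.2 ∈ B <;> simp [hxA, hxB, Set.indicator]
    rw [h2, L2.inner_indicatorConstLp_one] at h1
    exact h1
  have hall : ∀ S : Set (unitInterval × unitInterval), MeasurableSet S →
      ∫ x in S, (g : unitInterval × unitInterval → ℝ) x = 0 := by
    intro S hS
    induction S, hS
      using MeasurableSpace.induction_on_inter generateFrom_prod.symm isPiSystem_prod with
    | empty => simp
    | basic s hs =>
      obtain ⟨A, hA, B, hB, rfl⟩ := hs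
      exact hrect A B hA hB
    | compl s hs ih =>
      have h1 := integral_add_compl hs hint
      have h2 := hrect Set.univ Set.univ MeasurableSet.univ MeasurableSet.univ
      rw [Set.univ_prod_univ, setIntegral_univ] at h2
      rw [ih, h2, zero_add] at h1
      exact h1
    | iUnion f hfd hfm ih =>
      have h1 := hasSum_integral_iUnion hfm hfd hint.integrableOn
      simp only [ih] at h1
      exact h1.unique hasSum_zero
  have h0 : (g : unitInterval × unitInterval → ℝ) =ᵐ[volume] 0 :=
    ae_eq_zero_of_forall_setIntegral_eq_of_sigmaFinite (fun s _ _ => hint.integrableOn)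
      (fun s hs _ => hall s hs)
  exact (Lp.eq_zero_iff_ae_eq_zero).mpr h0

/-- An infinite orthonormal sequence. -/
lemma exists_orthonormal : ∃ e : ℕ → K1, Orthonormal ℝ e := by
  -- disjoint intervals
  let pt : ℕ → unitInterval := fun n => ⟨1 / ((n : ℝ) + 1), by positivity, by
    rw [div_le_one (by positivity)]
    have : (0 : ℝ) ≤ n := Nat.cast_nonneg n
    linarith⟩
  have hpt : ∀ n, ((pt n : unitInterval) : ℝ) = 1 / ((n : ℝ) + 1) := fun n => rfl
  have hlt : ∀ n m : ℕ, n < m → (pt m : unitInterval) < pt n := by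
    intro n m h
    rw [← Subtype.coe_lt_coe, hpt, hpt]
    apply one_div_lt_one_div_of_lt (by positivity)
    have : (n : ℝ) < m := by exact_mod_cast h
    linarith
  have hle : ∀ n m : ℕ, n ≤ m → (pt m : unitInterval) ≤ pt n := by
    intro n m h
    rcases h.lt_or_eq with h1 | h1
    · exact (hlt n m h1).le
    · rw [h1]
  let J : ℕ → Set unitInterval := fun n => Set.Ioc (pt (n + 1)) (pt n)
  have hJm : ∀ n, MeasurableSet (J n) := fun n => measurableSet_Ioc
  have hJd : ∀ n m, n ≠ m → J n ∩ J m = ∅ := by
    have h1 : ∀ n m, n < m → J n ∩ J m = ∅ := by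
      intro n m h
      ext x
      simp only [Set.mem_inter_iff, Set.mem_empty_iff_false, iff_false]
      rintro ⟨h1, h2⟩
      have h3 := hle (n + 1) m h
      exact absurd (lt_of_le_of_lt (h2.2.trans h3) h1.1) (lt_irrefl _)
    intro n m h
    rcases lt_or_gt_of_ne h with h2 | h2
    · exact h1 n m h2
    · rw [Set.inter_comm]; exact h1 m n h2
  have hJpos : ∀ n, 0 < (volume : Measure unitInterval).real (J n) := by
    intro n
    have h1 : (volume : Measure unitInterval) (J n) = ENNReal.ofReal (pt n - pt (n + 1)) := by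
      simp [J]
    rw [Measure.real, h1, ENNReal.toReal_ofReal]
    · have := hlt n (n + 1) (Nat.lt_succ_self n)
      rw [← Subtype.coe_lt_coe] at this
      linarith
    · have := hlt n (n + 1) (Nat.lt_succ_self n)
      rw [← Subtype.coe_lt_coe] at this
      linarith
  let c : ℕ → ℝ := fun n => (Real.sqrt ((volume : Measure unitInterval).real (J n)))⁻¹
  refine ⟨fun n => c n • indicatorConstLp 2 (hJm n) (measure_ne_top _ _) (1 : ℝ), ?_⟩
  rw [orthonormal_iff_ite]
  intro i j
  rw [real_inner_smul_left, real_inner_smul_right,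
    L2.real_inner_indicatorConstLp_one_indicatorConstLp_one (hJm i) (hJm j)]
  by_cases hij : i = j
  · subst hij
    rw [if_pos rfl, Set.inter_self]
    have h1 := hJpos i
    have h2 := Real.mul_self_sqrt h1.le
    have h3 : Real.sqrt ((volume : Measure unitInterval).real (J i)) ≠ 0 :=
      (Real.sqrt_pos.mpr h1).ne'
    change (Real.sqrt _)⁻¹ * ((Real.sqrt _)⁻¹ * _) = 1
    field_simp
    rw [sq]
    exact h2.symm
  · rw [if_neg hij, hJd i j hij]
    simp

end Pool.Agent.H66R3.WB
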