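import Mathlib
import Pool.Agent.H66R3.WB.Game

/-! One step of the singular value game. -/

set_option autoImplicit false

open scoped InnerProductSpace
open Finset

namespace Pool.Agent.H66R3.WB

variable {K H : Type*} [NormedAddCommGroup K] [InnerProductSpace ℝ K]
  [NormedAddCommGroup H] [InnerProductSpace ℝ H] {T : K →ₗ[ℝ] K →ₗ[ℝ] H}

lemma inner_sum_T (hT : IsTens T) {u v : ℕ → K} (hu : Orthonormal ℝ u) (hv : Orthonormal ℝ v)
    (y : ℕ → ℝ) (s : Finset ℕ) (r : ℕ) (hr : r ∈ s) :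
    ⟪∑ i ∈ s, y i • T (u i) (v i), T (u r) (v r)⟫_ℝ = y r := by
  rw [orthonormal_iff_ite] at hu hv
  rw [sum_inner, sum_eq_single r]
  · rw [real_inner_smul_left, hT, hu, hv, if_pos rfl]; ring
  · intro i _ hir
    rw [real_inner_smul_left, hT, hu, if_neg hir]; ring
  · intro h1; exact absurd hr h1

/-- The kill move. -/
lemma kill (hT : IsTens T) {f : H} {A G x α : ℝ} (hI : Inv T f A G x) (hx : 0 < x)
    (hα : x / 16 < α) :
    ∃ a b : K, ‖a‖ = 1 ∧ ‖b‖ = 1 ∧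
      (∀ a' b' : K, |⟪f, T a' b'⟫_ℝ| ≤ |⟪f, T a b⟫_ℝ| * (‖a'‖ * ‖b'‖)) ∧
      |⟪f, T a b⟫_ℝ| ≤ 16 * α ∧
      Pre T (f - ⟪f, T a b⟫_ℝ • T a b) (A + α) (G + α ^ 2) x := by
  obtain ⟨u, v, y, s, p, q, b, c, hu, hv, hp, hq, hpq, hf, hy, hc, h1, h2, h3, h4, hpot⟩ := hI
  have hb0 : 0 ≤ b := by linarith
  have hbx : b ≤ x := by
    have : b ^ 2 ≤ x ^ 2 := by nlinarith [sq_nonneg c]
    exact le_of_sq_le_sq this hx.le
  have hcx : c ≤ x := by linarith
  have h15 : 15 / 16 * x ^ 2 ≤ b ^ 2 + c ^ 2 := by nlinarith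
  set Y := Function.update (Function.update y p b) q c with hY
  set S := insert p (insert q s) with hS
  have hfS : f = ∑ i ∈ S, Y i • T (u i) (v i) := by
    rw [hf]; exact two_insert s hp hq hpq u v y b c
  have hYb := two_insert_bd s hp hq hpq y b c x hy ⟨hb0, hbx⟩ ⟨hc, hcx⟩
  have hYp : Y p = b := by
    rw [hY, Function.update_of_ne hpq, Function.update_self]
  have hpS : p ∈ S := mem_insert_self _ _
  obtain ⟨r, hr, hmax⟩ := exists_max_image S Y ⟨p, hpS⟩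
  have hrb : b ≤ Y r := by rw [← hYp]; exact hmax p hpS
  have hin : ⟪f, T (u r) (v r)⟫_ℝ = Y r := by
    rw [hfS]; exact inner_sum_T hT hu hv Y S r hr
  have hYr0 : 0 ≤ Y r := (hYb r hr).1
  refine ⟨u r, v r, hu.1 r, hv.1 r, ?_, ?_, ?_⟩
  · intro a' b'
    rw [hin, abs_of_nonneg hYr0, hfS]
    exact sup_bound hT hu hv Y S (Y r) hYr0 (fun i hi => ⟨(hYb i hi).1, hmax i hi⟩) a' b'
  · rw [hin, abs_of_nonneg hYr0]
    have := (hYb r hr).2
    linarith
  · refine ⟨u, v, Y, S.erase r, hu, hv, ?_, fun i hi => hYb i (mem_of_mem_erase hi), ?_⟩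
    · rw [hin, hfS, ← sum_erase_add S _ hr]
      abel
    · intro L hL hLx
      have e1 : ∑ i ∈ S.erase r, h L (Y i) = h L b + h L c + ∑ i ∈ s, h L (y i) - h L (Y r) := by
        rw [← two_insert_h s hp hq hpq y b c L, ← sum_erase_add S _ hr]
        ring
      have e2 : h L b ≤ h L (Y r) := h_mono hL hb0 hrb
      have e3 := real_kill hL hLx hc h1 h3 h15
      have e4 := hpot L hL hLx
      have e5 : α ≤ 16 * α ^ 2 / L := by
        rw [le_div_iff₀ hL]
        have : 0 < α := by linarith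
        nlinarith
      have e6 : (6 + 16 * (G + α ^ 2)) / L = (6 + 16 * G) / L + 16 * α ^ 2 / L := by ring
      rw [e1, e6]
      linarith

/-- The pair move. -/
lemma pair_step (hT : IsTens T) {f : H} {A G x α : ℝ} (hI : Inv T f A G x) (hx : 0 < x)
    (hα0 : 0 ≤ α) (hα : α ≤ x / 16) :
    ∃ a b : K, ‖a‖ = 1 ∧ ‖b‖ = 1 ∧
      (∀ a' b' : K, |⟪f, T a' b'⟫_ℝ| ≤ x * (‖a'‖ * ‖b'‖)) ∧
      ⟪f, T a b⟫_ℝ = α ∧
      (Pre T (f - α • T a b) (A + α) (G + α ^ 2) x ∨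
        Inv T (f - α • T a b) (A + α) (G + α ^ 2) x) := by
  obtain ⟨u, v, y, s, p, q, b, c, hu, hv, hp, hq, hpq, hf, hy, hc, h1, h2, h3, h4, hpot⟩ := hI
  have hb0 : 0 ≤ b := by linarith
  have hbx : b ≤ x := by
    have : b ^ 2 ≤ x ^ 2 := by nlinarith [sq_nonneg c]
    exact le_of_sq_le_sq this hx.le
  have hcx : c ≤ x := by linarith
  have hsup : ∀ a' b' : K, |⟪f, T a' b'⟫_ℝ| ≤ x * (‖a'‖ * ‖b'‖) := by
    intro a' b'
    rw [hf, two_insert s hp hq hpq u v y b c]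
    exact sup_bound hT hu hv _ _ x hx.le
      (two_insert_bd s hp hq hpq y b c x hy ⟨hb0, hbx⟩ ⟨hc, hcx⟩) a' b'
  obtain ⟨C, S, c', s', z', hCS, hcs, hz', hz'2, hin, k1, k2, k3⟩ :=
    pair_scalar ((b + c) / 2) ((b - c) / 2) α (by linarith) (by
      rw [abs_le]; constructor <;> linarith)
  have hu1 := hu
  have hv1 := hv
  rw [orthonormal_iff_ite] at hu1 hv1
  have huu : ∀ i, ⟪u i, u i⟫_ℝ = 1 := fun i => by rw [hu1 i i, if_pos rfl]
  have hune : ∀ i j, i ≠ j → ⟪u i, u j⟫_ℝ = 0 := fun i j h => by rw [hu1 i j, if_neg h]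
  have hvv : ∀ i, ⟪v i, v i⟫_ℝ = 1 := fun i => by rw [hv1 i i, if_pos rfl]
  have hvne : ∀ i j, i ≠ j → ⟪v i, v j⟫_ℝ = 0 := fun i j h => by rw [hv1 i j, if_neg h]
  have hCS' : C ^ 2 + (-S) ^ 2 = 1 := by rw [neg_sq]; exact hCS
  have hcs' : c' ^ 2 + (-s') ^ 2 = 1 := by rw [neg_sq]; exact hcs
  have hna : ‖C • u p + S • u q‖ = 1 := by
    have := (rot_orthonormal hu hpq hCS).1 p
    rwa [rot_p] at this
  have hnb : ‖C • v p + (-S) • v q‖ = 1 := by
    have := (rot_orthonormal hv hpq hCS').1 p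
    rwa [rot_p] at this
  set w := (b - c) / 2 with hw
  set z := (b + c) / 2 with hz
  have hbzw : b = z + w := by rw [hz, hw]; ring
  have hczw : c = z - w := by rw [hz, hw]; ring
  have hinner : ⟪f, T (C • u p + S • u q) (C • v p + (-S) • v q)⟫_ℝ = α := by
    rw [hf, inner_add_left, sum_inner, sum_eq_zero, inner_add_left, real_inner_smul_left,
      real_inner_smul_left, hT, hT]
    · simp only [inner_add_right, real_inner_smul_right, huu, hvv, hune p q hpq, hvne p q hpq,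
        hune q p hpq.symm, hvne q p hpq.symm]
      rw [hbzw, hczw]
      linear_combination hin
    · intro i hi
      have hip : i ≠ p := fun e => hp (e ▸ hi)
      have hiq : i ≠ q := fun e => hq (e ▸ hi)
      rw [real_inner_smul_left, hT, inner_add_right, real_inner_smul_right, real_inner_smul_right,
        hune i p hip, hune i q hiq]
      ring
  refine ⟨C • u p + S • u q, C • v p + (-S) • v q, hna, hnb, hsup, hinner, ?_⟩
  -- the new state
  set w' := w - α / 2 with hw'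
  have hU : Orthonormal ℝ (rot u p q c' s') := rot_orthonormal hu hpq hcs
  have hV : Orthonormal ℝ (rot v p q c' (-s')) := rot_orthonormal hv hpq hcs'
  have hvec : f - α • T (C • u p + S • u q) (C • v p + (-S) • v q) =
      ∑ i ∈ s, y i • T (rot u p q c' s' i) (rot v p q c' (-s') i) +
        ((z' + w') • T (rot u p q c' s' p) (rot v p q c' (-s') p) +
          (z' - w') • T (rot u p q c' s' q) (rot v p q c' (-s') q)) := by
    have e1 : ∑ i ∈ s, y i • T (rot u p q c' s' i) (rot v p q c' (-s') i) =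
        ∑ i ∈ s, y i • T (u i) (v i) := by
      apply sum_congr rfl
      intro i hi
      have hip : i ≠ p := fun e => hp (e ▸ hi)
      have hiq : i ≠ q := fun e => hq (e ▸ hi)
      rw [rot_other u c' s' hip hiq, rot_other v c' (-s') hip hiq]
    rw [e1, rot_p, rot_p, rot_q u hpq, rot_q v hpq, hf, hbzw, hczw]
    simp only [map_add, map_smul, LinearMap.add_apply, LinearMap.smul_apply]
    linear_combination (norm := module) k1 • (T (u p) (v p)) + k2 • (T (u p) (v q)) -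
      k2 • (T (u q) (v p)) + k3 • (T (u q) (v q))
  have hzpos : 0 ≤ z := by rw [hz]; linarith
  have hz'w' : w' ≤ z' := by
    apply le_of_sq_le_sq _ hz'
    rw [hz'2]
    have e1 : z ^ 2 + α * w - 3 / 4 * α ^ 2 - w' ^ 2 = b * c + α * (b - c - α) := by
      rw [hw', hz, hw]; ring
    have e2 : 0 ≤ b * c := mul_nonneg hb0 hc
    have e3 : 0 ≤ α * (b - c - α) := mul_nonneg hα0 (by linarith)
    linarith
  have hw'0 : 0 ≤ w' := by rw [hw', hw]; linarith
  have hsq : (z' + w') ^ 2 + (z' - w') ^ 2 = b ^ 2 + c ^ 2 - α ^ 2 := by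
    have e1 : (z' + w') ^ 2 + (z' - w') ^ 2 = 2 * z' ^ 2 + 2 * w' ^ 2 := by ring
    rw [e1, hz'2, hw', hz, hw]
    ring
  have hd : (z' + w') - (z' - w') = (b - c) - α := by rw [hw', hw]; ring
  have hB0 : 0 ≤ z' + w' := by linarith
  have hC0 : 0 ≤ z' - w' := by linarith
  have hle1 : (z' + w') ^ 2 + (z' - w') ^ 2 ≤ x ^ 2 := by
    rw [hsq]; linarith [sq_nonneg α]
  have hαα : α ^ 2 ≤ x / 16 * α := by
    rw [sq]; exact mul_le_mul_of_nonneg_right hα hα0
  have hge1 : x ^ 2 - x / 16 * (x - ((z' + w') - (z' - w'))) ≤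
      (z' + w') ^ 2 + (z' - w') ^ 2 := by
    rw [hsq, hd]; linarith
  have hBx : z' + w' ≤ x := by
    have : (z' + w') ^ 2 ≤ x ^ 2 := by linarith [sq_nonneg (z' - w')]
    exact le_of_sq_le_sq this hx.le
  have hpot' : ∀ L : ℝ, 0 < L → L ≤ x →
      A + α + (6 * x ^ 2 / L - 4 * x + ((z' + w') - (z' - w'))) + ∑ i ∈ s, h L (y i) ≤
        (6 + 16 * (G + α ^ 2)) / L := by
    intro L hL hLx
    have e4 := hpot L hL hLx
    have e6 : (6 + 16 * (G + α ^ 2)) / L = (6 + 16 * G) / L + 16 * α ^ 2 / L := by ring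
    have e7 : 0 ≤ 16 * α ^ 2 / L := by positivity
    rw [hd, e6]
    linarith
  rcases le_or_gt (x / 4) ((z' + w') - (z' - w')) with hcase | hcase
  · right
    exact ⟨rot u p q c' s', rot v p q c' (-s'), y, s, p, q, z' + w', z' - w', hU, hV, hp, hq, hpq,
      hvec, hy, hC0, hcase, by linarith, hle1, hge1, hpot'⟩
  · left
    have h15 : 15 / 16 * x ^ 2 ≤ (z' + w') ^ 2 + (z' - w') ^ 2 := by
      have h0 : 0 ≤ (z' + w') - (z' - w') := by linarith
      have h1 : x / 16 * (x - ((z' + w') - (z' - w'))) ≤ x / 16 * x :=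
        mul_le_mul_of_nonneg_left (by linarith) (by linarith)
      linarith
    refine ⟨rot u p q c' s', rot v p q c' (-s'),
      Function.update (Function.update y p (z' + w')) q (z' - w'), insert p (insert q s), hU, hV,
      ?_, two_insert_bd s hp hq hpq y _ _ x hy ⟨hB0, hBx⟩ ⟨hC0, by linarith⟩, ?_⟩
    · rw [hvec]
      exact two_insert s hp hq hpq _ _ y _ _
    · intro L hL hLx
      rw [two_insert_h s hp hq hpq]
      have e1 := real_rebase hL hLx (by linarith) hC0 hcase hle1 h15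
      have e2 := hpot' L hL hLx
      linarith

/-- The state of the game, with all singular values at most `X`. -/
def State (T : K →ₗ[ℝ] K →ₗ[ℝ] H) (f : H) (A G X : ℝ) : Prop :=
  ∃ x, 0 < x ∧ x ≤ X ∧ (Pre T f A G x ∨ Inv T f A G x)

/-- One step. -/
lemma one_step (hT : IsTens T) {f : H} {A G X α t : ℝ} (hS : State T f A G X) (hf : f ≠ 0)
    (hG : 16 * G ≤ 1) (ht0 : 0 ≤ t) (ht1 : t ≤ 1) (hα0 : 0 ≤ α)
    (hyp : ∀ x, 0 < x → x ≤ X → α ≤ x / 16 → (A + α) * x ≤ 7 → t * x ≤ α) :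
    ∃ a b : K, ‖a‖ = 1 ∧ ‖b‖ = 1 ∧
      (∀ a' b' : K, t * |⟪f, T a' b'⟫_ℝ| ≤ |⟪f, T a b⟫_ℝ| * (‖a'‖ * ‖b'‖)) ∧
      |⟪f, T a b⟫_ℝ| ≤ 16 * α ∧
      State T (f - ⟪f, T a b⟫_ℝ • T a b) (A + α) (G + α ^ 2) X := by
  obtain ⟨x, hx, hxX, hI⟩ : ∃ x, 0 < x ∧ x ≤ X ∧ Inv T f A G x := by
    obtain ⟨x, hx, hxX, h1 | h1⟩ := hS
    · obtain ⟨x', h2, h3, h4⟩ := rebase h1 hf
      exact ⟨x', h2, h3.trans hxX, h4⟩
    · exact ⟨x, hx, hxX, h1⟩
  rcases le_or_gt α (x / 16) with hα | hα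
  · obtain ⟨a, b, ha, hb, hsup, hin, hst⟩ := pair_step hT hI hx hα0 hα
    have h1 := inv_bound hI hx
    have h2 : (A + α) * x ≤ 7 := by nlinarith
    have h3 := hyp x hx hxX hα h2
    refine ⟨a, b, ha, hb, ?_, ?_, x, hx, hxX, ?_⟩
    · intro a' b'
      rw [hin, abs_of_nonneg hα0]
      calc t * |⟪f, T a' b'⟫_ℝ| ≤ t * (x * (‖a'‖ * ‖b'‖)) :=
            mul_le_mul_of_nonneg_left (hsup a' b') ht0
        _ = (t * x) * (‖a'‖ * ‖b'‖) := by ring
        _ ≤ α * (‖a'‖ * ‖b'‖) := mul_le_mul_of_nonneg_right h3 (by positivity)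
    · rw [hin, abs_of_nonneg hα0]; linarith
    · rw [hin]; exact hst
  · obtain ⟨a, b, ha, hb, hsup, hin, hst⟩ := kill hT hI hx hα
    refine ⟨a, b, ha, hb, ?_, hin, x, hx, hxX, Or.inl hst⟩
    intro a' b'
    calc t * |⟪f, T a' b'⟫_ℝ| ≤ 1 * |⟪f, T a' b'⟫_ℝ| :=
          mul_le_mul_of_nonneg_right ht1 (abs_nonneg _)
      _ = |⟪f, T a' b'⟫_ℝ| := one_mul _
      _ ≤ _ := hsup a' b'

end Pool.Agent.H66R3.WB
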