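import Mathlib
import Pool.Agent.H66R3.WB.Step

/-! The diverging run. -/

set_option autoImplicit false

open scoped InnerProductSpace
open Finset Filter Topology

namespace Pool.Agent.H66R3.WB

/-- Choice of the decrements. -/
lemma exists_alpha (a : ℕ → ℝ) (ha : ∀ n, 0 ≤ a n) (hs : Summable fun n => a n ^ 2)
    (t : ℕ → ℝ) (ht1 : ∀ n, t n ≤ 1)
    (hta : ∀ n, t n ≤ a n * ∑ j ∈ range (n + 1), a j) :
    ∃ (M : ℕ) (α : ℕ → ℝ), 0 < M ∧ (∀ n, 0 ≤ α n) ∧
      (∀ n, 256 * ∑ j ∈ range n, α j ^ 2 ≤ 1 / 4) ∧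
      ∀ n x, 0 < x → x ≤ 1 / (M : ℝ) →
        (3 * (M : ℝ) + ∑ j ∈ range n, α j + α n) * x ≤ 7 → t n * x ≤ α n := by
  obtain ⟨S, hS⟩ := hs
  have hS' := hS.tendsto_sum_nat
  obtain ⟨n0, hn0⟩ : ∃ n0, S - 1 / 30000 < ∑ j ∈ range n0, a j ^ 2 :=
    (hS'.eventually_const_lt (by linarith : S - 1 / 30000 < S)).exists
  have hle : ∀ n, ∑ j ∈ range n, a j ^ 2 ≤ S := fun n =>
    sum_le_hasSum _ (fun i _ => sq_nonneg _) hS
  obtain ⟨M, hM⟩ := exists_nat_gt (max (∑ j ∈ range n0, a j) (max (3000 * (n0 : ℝ)) 1))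
  have hM1 : ∑ j ∈ range n0, a j < M := lt_of_le_of_lt (le_max_left _ _) hM
  have hM2 : 3000 * (n0 : ℝ) < M :=
    lt_of_le_of_lt ((le_max_left _ _).trans (le_max_right _ _)) hM
  have hM3 : (1 : ℝ) < M := lt_of_le_of_lt ((le_max_right _ _).trans (le_max_right _ _)) hM
  have hM0 : (0 : ℝ) < M := by linarith
  refine ⟨M, fun j => if j < n0 then 1 / (M : ℝ) else 3 * a j, by exact_mod_cast hM0, ?_, ?_, ?_⟩
  · intro n
    dsimp only
    split_ifs
    · positivity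
    · exact mul_nonneg (by norm_num) (ha n)
  · intro n
    have key : ∀ n, ∑ j ∈ range n, (if j < n0 then 1 / (M : ℝ) else 3 * a j) ^ 2 ≤
        (min n n0 : ℕ) / (M : ℝ) ^ 2 +
          9 * (∑ j ∈ range (max n n0), a j ^ 2 - ∑ j ∈ range n0, a j ^ 2) := by
      intro n
      induction n with
      | zero => simp
      | succ n ih =>
        rw [sum_range_succ]
        rcases lt_or_ge n n0 with h1 | h1
        · rw [if_pos h1]
          rw [min_eq_left h1.le, max_eq_right h1.le] at ih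
          rw [min_eq_left (Nat.succ_le_of_lt h1), max_eq_right (Nat.succ_le_of_lt h1)]
          have : ((n + 1 : ℕ) : ℝ) / (M : ℝ) ^ 2 = n / (M : ℝ) ^ 2 + (1 / (M : ℝ)) ^ 2 := by
            push_cast; ring
          rw [this]
          linarith
        · rw [if_neg (not_lt.mpr h1)]
          rw [min_eq_right h1, max_eq_left h1] at ih
          rw [min_eq_right (by omega), max_eq_left (by omega), sum_range_succ]
          nlinarith
    have h1 := key n
    have h2 : ((min n n0 : ℕ) : ℝ) / (M : ℝ) ^ 2 ≤ 1 / 3000 := by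
      rw [div_le_iff₀ (by positivity)]
      have h3 : ((min n n0 : ℕ) : ℝ) ≤ n0 := by exact_mod_cast min_le_right _ _
      nlinarith
    have h4 := hle (max n n0)
    linarith
  · intro n x hx hxM h7
    dsimp only at h7 ⊢
    split_ifs with hn
    · calc t n * x ≤ 1 * x := mul_le_mul_of_nonneg_right (ht1 n) hx.le
        _ = x := one_mul _
        _ ≤ _ := hxM
    · have key : ∀ n, n0 ≤ n → 3 * ∑ j ∈ range n, a j ≤
          3 * (M : ℝ) + ∑ j ∈ range n, (if j < n0 then 1 / (M : ℝ) else 3 * a j) := by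
        intro n hn
        induction n, hn using Nat.le_induction with
        | base =>
          have : 0 ≤ ∑ j ∈ range n0, (if j < n0 then 1 / (M : ℝ) else 3 * a j) := by
            apply sum_nonneg
            intro j _
            split_ifs
            · positivity
            · exact mul_nonneg (by norm_num) (ha j)
          linarith
        | succ n hn ih =>
          rw [sum_range_succ, sum_range_succ, if_neg (not_lt.mpr hn)]
          linarith
      have h1 := key (n + 1) (by omega)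
      rw [sum_range_succ (fun j => if j < n0 then 1 / (M : ℝ) else 3 * a j)] at h1
      rw [if_neg hn] at h1 h7
      have h2 : 3 * (∑ j ∈ range (n + 1), a j) * x ≤ 7 := by
        refine le_trans ?_ h7
        apply mul_le_mul_of_nonneg_right _ hx.le
        linarith
      calc t n * x ≤ (a n * ∑ j ∈ range (n + 1), a j) * x :=
            mul_le_mul_of_nonneg_right (hta n) hx.le
        _ = a n * ((∑ j ∈ range (n + 1), a j) * x) := by ring
        _ ≤ a n * (7 / 3) := mul_le_mul_of_nonneg_left (by linarith) (ha n)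
        _ ≤ 3 * a n := by nlinarith [ha n]

variable {K H : Type*} [NormedAddCommGroup K] [InnerProductSpace ℝ K]
  [NormedAddCommGroup H] [InnerProductSpace ℝ H] {T : K →ₗ[ℝ] K →ₗ[ℝ] H}

lemma norm_sub_proj_sq (f g : H) (hg : ‖g‖ = 1) :
    ‖f - ⟪f, g⟫_ℝ • g‖ ^ 2 = ‖f‖ ^ 2 - ⟪f, g⟫_ℝ ^ 2 := by
  rw [norm_sub_sq_real, norm_smul, hg, real_inner_smul_right, mul_one, Real.norm_eq_abs, sq_abs]
  ring

/-- The initial state. -/
lemma init_state (hT : IsTens T) (e : ℕ → K) (he : Orthonormal ℝ e) (M : ℕ) (hM : 0 < M) :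
    ∃ f : H, ‖f‖ ^ 2 = 1 ∧ State T f (3 * (M : ℝ)) 0 (1 / (M : ℝ)) := by
  have hM' : (0 : ℝ) < M := by exact_mod_cast hM
  refine ⟨∑ i ∈ range (M ^ 2), (1 / (M : ℝ)) • T (e i) (e i), ?_, 1 / M, by positivity, le_rfl,
    Or.inl ⟨e, e, fun _ => 1 / (M : ℝ), range (M ^ 2), he, he, rfl, fun i _ =>
      ⟨by positivity, le_rfl⟩, ?_⟩⟩
  · rw [← real_inner_self_eq_norm_sq, inner_sum]
    have h1 : ∀ r ∈ range (M ^ 2), ⟪∑ i ∈ range (M ^ 2), (1 / (M : ℝ)) • T (e i) (e i),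
        (1 / (M : ℝ)) • T (e r) (e r)⟫_ℝ = (1 / (M : ℝ)) * (1 / (M : ℝ)) := by
      intro r hr
      rw [real_inner_smul_right,
        inner_sum_T hT he he (fun _ => 1 / (M : ℝ)) (range (M ^ 2)) r hr]
    rw [sum_congr rfl h1, sum_const, card_range, nsmul_eq_mul]
    push_cast
    field_simp
  · intro L hL hLM
    have h1 : L ≤ 2 * (1 / (M : ℝ)) := by
      have : 0 < 1 / (M : ℝ) := by positivity
      linarith
    dsimp only
    rw [h_of_ge hL h1, sum_const, card_range, nsmul_eq_mul]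
    push_cast
    have : 3 * (M : ℝ) + (M : ℝ) ^ 2 * (6 * (1 / (M : ℝ)) ^ 2 / L - 3 * (1 / (M : ℝ))) =
        6 / L := by
      field_simp
      ring
    rw [this]
    simp

/-- The abstract diverging run. -/
theorem exists_run (hT : IsTens T) (e : ℕ → K) (he : Orthonormal ℝ e)
    (t : ℕ → ℝ) (ht0 : ∀ n, 0 ≤ t n) (ht1 : ∀ n, t n ≤ 1)
    (a : ℕ → ℝ) (ha : ∀ n, 0 ≤ a n) (hs : Summable fun n => a n ^ 2)
    (hta : ∀ n, t n ≤ a n * ∑ j ∈ range (n + 1), a j) :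
    ∃ (r : ℕ → H) (x y : ℕ → K), (∀ n, ‖x n‖ = 1) ∧ (∀ n, ‖y n‖ = 1) ∧
      (∀ n, ∀ a' b' : K, t n * |⟪r n, T a' b'⟫_ℝ| ≤ |⟪r n, T (x n) (y n)⟫_ℝ| * (‖a'‖ * ‖b'‖)) ∧
      (∀ n, r (n + 1) = r n - ⟪r n, T (x n) (y n)⟫_ℝ • T (x n) (y n)) ∧
      ∀ n, 3 / 4 ≤ ‖r n‖ ^ 2 := by
  obtain ⟨M, α, hM, hα0, hα, hyp⟩ := exists_alpha a ha hs t ht1 hta
  obtain ⟨f0, hf0, hst0⟩ := init_state hT e he M hM
  set P : ℕ → H → Prop := fun n f => State T f (3 * (M : ℝ) + ∑ j ∈ range n, α j)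
    (∑ j ∈ range n, α j ^ 2) (1 / (M : ℝ)) ∧ 1 - 256 * ∑ j ∈ range n, α j ^ 2 ≤ ‖f‖ ^ 2 with hP
  have hP0 : P 0 f0 := by
    refine ⟨?_, ?_⟩
    · simpa using hst0
    · simp [hf0]
  have hlow : ∀ n f, P n f → 3 / 4 ≤ ‖f‖ ^ 2 := by
    intro n f h1
    have := hα n
    linarith [h1.2]
  have hstep : ∀ (n : ℕ) (f : {f : H // P n f}), ∃ ab : K × K, (‖ab.1‖ = 1 ∧ ‖ab.2‖ = 1 ∧
      (∀ a' b' : K, t n * |⟪f.1, T a' b'⟫_ℝ| ≤ |⟪f.1, T ab.1 ab.2⟫_ℝ| * (‖a'‖ * ‖b'‖))) ∧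
      P (n + 1) (f.1 - ⟪f.1, T ab.1 ab.2⟫_ℝ • T ab.1 ab.2) := by
    rintro n ⟨f, hf⟩
    have hf' := hlow n f hf
    have hne : f ≠ 0 := by
      rintro rfl
      simp at hf'
      norm_num at hf'
    have hG : 16 * ∑ j ∈ range n, α j ^ 2 ≤ 1 := by
      have := hα n
      have h0 : 0 ≤ ∑ j ∈ range n, α j ^ 2 := sum_nonneg fun i _ => sq_nonneg _
      linarith
    obtain ⟨x, y, hx, hy, hsup, hin, hst⟩ := one_step hT hf.1 hne hG (ht0 n) (ht1 n) (hα0 n)
      (fun x hx hxM _ h7 => hyp n x hx hxM h7)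
    refine ⟨(x, y), ⟨hx, hy, hsup⟩, ?_, ?_⟩
    · rw [sum_range_succ, sum_range_succ, ← add_assoc]
      exact hst
    · dsimp only
      have hg : ‖T x y‖ = 1 := by rw [hT.norm, hx, hy, mul_one]
      rw [norm_sub_proj_sq _ _ hg, sum_range_succ]
      have h1 : ⟪f, T x y⟫_ℝ ^ 2 ≤ (16 * α n) ^ 2 := by
        rw [← sq_abs]
        exact pow_le_pow_left₀ (abs_nonneg _) hin 2
      have h2 := hf.2
      nlinarith
  choose ab hab1 hab2 using hstep
  let seq : ∀ n, {f : H // P n f} := fun n => Nat.rec (motive := fun n => {f : H // P n f})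
    ⟨f0, hP0⟩ (fun n f => ⟨f.1 - ⟪f.1, T (ab n f).1 (ab n f).2⟫_ℝ • T (ab n f).1 (ab n f).2,
      hab2 n f⟩) n
  have hseq : ∀ n, (seq (n + 1)).1 = (seq n).1 -
      ⟪(seq n).1, T (ab n (seq n)).1 (ab n (seq n)).2⟫_ℝ • T (ab n (seq n)).1 (ab n (seq n)).2 :=
    fun n => rfl
  refine ⟨fun n => (seq n).1, fun n => (ab n (seq n)).1, fun n => (ab n (seq n)).2,
    fun n => (hab1 n (seq n)).1, fun n => (hab1 n (seq n)).2.1, fun n => (hab1 n (seq n)).2.2,
    hseq, fun n => hlow n _ (seq n).2⟩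

end Pool.Agent.H66R3.WB
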