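import Mathlib

/-! The summability condition and the class `V`. -/

set_option autoImplicit false

open Finset Filter Topology

namespace Pool.Agent.H66R3.WB

lemma sum_blocks (g : ℕ → ℝ) (q : ℕ → ℕ) (hq0 : q 0 = 0) (hq : Monotone q) (N : ℕ) :
    ∑ k ∈ Ioc 0 (q N), g k = ∑ s ∈ range N, ∑ k ∈ Ioc (q s) (q (s + 1)), g k := by
  induction N with
  | zero => simp [hq0]
  | succ N ih =>
    rw [sum_range_succ, ← ih, sum_Ioc_consecutive g (Nat.zero_le _) (hq (Nat.le_succ N))]

lemma Icc_one_eq (n : ℕ) : Icc 1 n = Ioc 0 n := by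
  ext k; simp only [mem_Icc, mem_Ioc]; omega

/-- From the class `V` to the summability condition. -/
lemma slow_of_V (t : ℕ → ℝ) (ht : ∀ k, 1 ≤ k → 0 ≤ t k ∧ t k ≤ 1) (q : ℕ → ℕ) (hq0 : q 0 = 0)
    (hq : StrictMono q) (h1 : Summable fun s : ℕ => (2 : ℝ) ^ s / ((q (s + 1) : ℝ) - q s))
    (h2 : Summable fun s : ℕ => (∑ k ∈ Icc 1 (q s), t k ^ 2) / (2 : ℝ) ^ s) :
    ∃ a : ℕ → ℝ, (∀ n, 0 ≤ a n) ∧ (Summable fun n => a n ^ 2) ∧
      ∀ n, 1 ≤ n → t n ≤ a n * ∑ j ∈ Icc 1 n, a j := by
  classical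
  have hex : ∀ k : ℕ, ∃ s, k ≤ q (s + 1) := fun k =>
    ⟨k, (Nat.le_succ k).trans (hq.id_le (k + 1))⟩
  set blk : ℕ → ℕ := fun k => Nat.find (hex k) with hblk
  have hblk1 : ∀ k, k ≤ q (blk k + 1) := fun k => Nat.find_spec (hex k)
  have hblk2 : ∀ s k, q s < k → k ≤ q (s + 1) → blk k = s := by
    intro s k hk1 hk2
    apply le_antisymm
    · exact Nat.find_min' (hex k) hk2
    · by_contra hcon
      push Not at hcon
      have h3 := hblk1 k
      have h4 : q (blk k + 1) ≤ q s := hq.monotone hcon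
      omega
  have hblk3 : ∀ k, 1 ≤ k → q (blk k) < k := by
    intro k hk
    rcases Nat.eq_zero_or_pos (blk k) with h | h
    · rw [h, hq0]; exact hk
    · obtain ⟨s, hs⟩ := Nat.exists_eq_succ_of_ne_zero h.ne'
      have h3 : ¬ k ≤ q (s + 1) := Nat.find_min (hex k) (by
        change s < blk k
        omega)
      rw [hs]
      exact not_le.mp h3
  have hΔ : ∀ s, (0 : ℝ) < (q (s + 1) : ℝ) - q s := by
    intro s
    have : (q s : ℝ) < q (s + 1) := by exact_mod_cast hq (Nat.lt_succ_self s)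
    linarith
  set R : ℝ := Real.sqrt 2 with hR
  have hR2 : R ^ 2 = 2 := Real.sq_sqrt (by norm_num)
  have hR0 : 0 < R := Real.sqrt_pos.mpr (by norm_num)
  have hRs : ∀ s : ℕ, (R ^ s) ^ 2 = 2 ^ s := by
    intro s
    rw [← pow_mul, mul_comm, pow_mul, hR2]
  set X : ℕ → ℝ := fun k => 2 * (R ^ blk k / ((q (blk k + 1) : ℝ) - q (blk k))) with hX
  set Y : ℕ → ℝ := fun k => if k = 0 then 0 else 2 * (t k / R ^ blk k) with hY
  set Z : ℕ → ℝ := fun k => if k ≤ q 1 then 1 else 0 with hZ
  have hX0 : ∀ k, 0 ≤ X k := by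
    intro k
    have := hΔ (blk k)
    rw [hX]; positivity
  have hY0 : ∀ k, 0 ≤ Y k := by
    intro k
    rw [hY]
    dsimp only
    split_ifs with hk
    · exact le_rfl
    · have := (ht k (Nat.one_le_iff_ne_zero.mpr hk)).1
      positivity
  have hZ0 : ∀ k, 0 ≤ Z k := by
    intro k
    rw [hZ]
    dsimp only
    split_ifs <;> norm_num
  have hsumm : ∀ g : ℕ → ℝ, (∀ k, 0 ≤ g k) → ∀ C : ℝ,
      (∀ N, ∑ k ∈ Ioc 0 (q N), g k ≤ C) → Summable g := by
    intro g hg C hC
    apply (summable_nat_add_iff 1).mp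
    apply summable_of_sum_range_le (c := C) (fun n => hg _)
    intro n
    refine le_trans ?_ (hC n)
    have e1 : ∑ i ∈ range n, g (i + 1) = ∑ k ∈ Ioc 0 n, g k := by
      rw [← Icc_one_eq, Finset.range_eq_Ico, Finset.sum_Ico_add' g 0 n 1]
      apply sum_congr _ (fun _ _ => rfl)
      ext k; simp only [mem_Ico, mem_Icc]; omega
    rw [e1]
    apply sum_le_sum_of_subset_of_nonneg
    · apply Ioc_subset_Ioc_right
      exact hq.id_le n
    · intro i _ _; exact hg i
  have hXs : Summable fun k => X k ^ 2 := by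
    apply hsumm _ (fun k => sq_nonneg _) (4 * ∑' s : ℕ, (2 : ℝ) ^ s / ((q (s + 1) : ℝ) - q s))
    intro N
    rw [sum_blocks _ q hq0 hq.monotone]
    have e1 : ∀ s ∈ range N, ∑ k ∈ Ioc (q s) (q (s + 1)), X k ^ 2 =
        4 * ((2 : ℝ) ^ s / ((q (s + 1) : ℝ) - q s)) := by
      intro s _
      have e2 : ∀ k ∈ Ioc (q s) (q (s + 1)), X k ^ 2 =
          4 * (2 ^ s / ((q (s + 1) : ℝ) - q s) ^ 2) := by
        intro k hk
        rw [mem_Ioc] at hk
        rw [hX]
        dsimp only
        rw [hblk2 s k hk.1 hk.2, mul_pow, div_pow, hRs]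
        norm_num
      rw [sum_congr rfl e2, sum_const, Nat.card_Ioc, nsmul_eq_mul,
        Nat.cast_sub (hq.monotone (Nat.le_succ s))]
      have := (hΔ s).ne'
      field_simp
    rw [sum_congr rfl e1, ← mul_sum]
    apply mul_le_mul_of_nonneg_left _ (by norm_num)
    apply h1.sum_le_tsum
    intro s _
    have := hΔ s
    positivity
  have hYs : Summable fun k => Y k ^ 2 := by
    apply hsumm _ (fun k => sq_nonneg _)
      (8 * ∑' s : ℕ, (∑ k ∈ Icc 1 (q s), t k ^ 2) / (2 : ℝ) ^ s)
    intro N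
    rw [sum_blocks _ q hq0 hq.monotone]
    have e1 : ∀ s ∈ range N, ∑ k ∈ Ioc (q s) (q (s + 1)), Y k ^ 2 ≤
        8 * ((∑ k ∈ Icc 1 (q (s + 1)), t k ^ 2) / (2 : ℝ) ^ (s + 1)) := by
      intro s _
      have e2 : ∀ k ∈ Ioc (q s) (q (s + 1)), Y k ^ 2 = 4 * t k ^ 2 / 2 ^ s := by
        intro k hk
        rw [mem_Ioc] at hk
        rw [hY]
        dsimp only
        rw [if_neg (by omega), hblk2 s k hk.1 hk.2, mul_pow, div_pow, hRs]
        ring
      rw [sum_congr rfl e2, ← sum_div, ← mul_sum]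
      have e3 : ∑ k ∈ Ioc (q s) (q (s + 1)), t k ^ 2 ≤ ∑ k ∈ Icc 1 (q (s + 1)), t k ^ 2 := by
        apply sum_le_sum_of_subset_of_nonneg
        · intro k hk
          rw [mem_Ioc] at hk
          rw [mem_Icc]
          omega
        · intro k _ _; exact sq_nonneg _
      have e4 : 8 * ((∑ k ∈ Icc 1 (q (s + 1)), t k ^ 2) / (2 : ℝ) ^ (s + 1)) =
          4 * (∑ k ∈ Icc 1 (q (s + 1)), t k ^ 2) / 2 ^ s := by
        rw [pow_succ]; field_simp; ring
      rw [e4]
      apply div_le_div_of_nonneg_right _ (by positivity)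
      linarith
    refine (sum_le_sum e1).trans ?_
    rw [← mul_sum]
    apply mul_le_mul_of_nonneg_left _ (by norm_num)
    have h3 := (summable_nat_add_iff 1).mpr h2
    refine (h3.sum_le_tsum (range N) (fun s _ => by positivity)).trans ?_
    rw [h2.tsum_eq_zero_add]
    have : 0 ≤ (∑ k ∈ Icc 1 (q 0), t k ^ 2) / (2 : ℝ) ^ 0 := by positivity
    linarith
  have hZs : Summable fun k => Z k ^ 2 := by
    apply summable_of_ne_finset_zero (s := range (q 1 + 1))
    intro k hk
    rw [mem_range] at hk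
    rw [hZ]
    dsimp only
    rw [if_neg (by omega)]
    norm_num
  refine ⟨fun k => X k + Y k + Z k, fun k => by
    have := hX0 k
    have := hY0 k
    have := hZ0 k
    dsimp only
    linarith, ?_, ?_⟩
  · have hb : Summable fun k => 3 * (X k ^ 2 + Y k ^ 2 + Z k ^ 2) :=
      ((hXs.add hYs).add hZs).mul_left 3
    refine Summable.of_nonneg_of_le (fun k => sq_nonneg _) (fun k => ?_) hb
    nlinarith [sq_nonneg (X k - Y k), sq_nonneg (Y k - Z k), sq_nonneg (X k - Z k)]
  · intro n hn
    dsimp only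
    have hnn : ∀ k, 0 ≤ X k + Y k + Z k := fun k => by
      have := hX0 k
      have := hY0 k
      have := hZ0 k
      linarith
    rcases Nat.eq_zero_or_pos (blk n) with h | h
    · have e1 := hblk1 n
      rw [h] at e1
      have e2 : Z n = 1 := by rw [hZ]; dsimp only; rw [if_pos e1]
      have e3 : 1 ≤ X n + Y n + Z n := by
        have := hX0 n
        have := hY0 n
        linarith
      have e4 : 1 ≤ ∑ j ∈ Icc 1 n, (X j + Y j + Z j) :=
        e3.trans (single_le_sum (f := fun j => X j + Y j + Z j) (fun i _ => hnn i)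
          (mem_Icc.mpr ⟨hn, le_rfl⟩))
      calc t n ≤ 1 * 1 := by rw [one_mul]; exact (ht n hn).2
        _ ≤ _ := mul_le_mul e3 e4 zero_le_one (by linarith)
    · obtain ⟨s, hs⟩ := Nat.exists_eq_succ_of_ne_zero h.ne'
      have e1 : q (s + 1) < n := by
        have := hblk3 n hn
        rwa [hs] at this
      have e2 : 2 * R ^ s ≤ ∑ j ∈ Icc 1 n, (X j + Y j + Z j) := by
        calc 2 * R ^ s = ∑ j ∈ Ioc (q s) (q (s + 1)), X j := by
              have e2 : ∀ k ∈ Ioc (q s) (q (s + 1)), X k =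
                  2 * (R ^ s / ((q (s + 1) : ℝ) - q s)) := by
                intro k hk
                rw [mem_Ioc] at hk
                rw [hX]
                dsimp only
                rw [hblk2 s k hk.1 hk.2]
              rw [sum_congr rfl e2, sum_const, Nat.card_Ioc, nsmul_eq_mul,
                Nat.cast_sub (hq.monotone (Nat.le_succ s))]
              have := (hΔ s).ne'
              field_simp
          _ ≤ ∑ j ∈ Ioc (q s) (q (s + 1)), (X j + Y j + Z j) := by
              apply sum_le_sum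
              intro j _
              have := hY0 j
              have := hZ0 j
              linarith
          _ ≤ _ := by
              apply sum_le_sum_of_subset_of_nonneg
              · intro k hk
                rw [mem_Ioc] at hk
                rw [mem_Icc]
                omega
              · intro k _ _; exact hnn k
      have e3 : 2 * (t n / R ^ (s + 1)) ≤ X n + Y n + Z n := by
        have e4 : Y n = 2 * (t n / R ^ (s + 1)) := by
          rw [hY]; dsimp only; rw [if_neg (by omega), hs]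
        have := hX0 n
        have := hZ0 n
        linarith
      have e5 : t n ≤ 2 * (t n / R ^ (s + 1)) * (2 * R ^ s) := by
        have e6 : 2 * (t n / R ^ (s + 1)) * (2 * R ^ s) = 4 / R * t n := by
          rw [pow_succ]
          field_simp
          ring
        rw [e6]
        have e7 : 1 ≤ 4 / R := by
          rw [le_div_iff₀ hR0]
          nlinarith
        have := (ht n hn).1
        nlinarith
      refine e5.trans (mul_le_mul e3 e2 (by positivity) (hnn n))

/-- From the summability condition to the class `V`. -/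
lemma V_of_slow (t : ℕ → ℝ) (ht : ∀ k, 1 ≤ k → 0 ≤ t k ∧ t k ≤ 1) (a : ℕ → ℝ)
    (ha : ∀ n, 0 ≤ a n) (hs : Summable fun n => a n ^ 2)
    (hta : ∀ n, 1 ≤ n → t n ≤ a n * ∑ j ∈ Icc 1 n, a j) :
    ∃ q : ℕ → ℕ, q 0 = 0 ∧ StrictMono q ∧
      (Summable fun s : ℕ => (2 : ℝ) ^ s / ((q (s + 1) : ℝ) - q s)) ∧
      Summable fun s : ℕ => (∑ k ∈ Icc 1 (q s), t k ^ 2) / (2 : ℝ) ^ s := by
  classical
  set S : ℕ → ℝ := fun k => ∑ j ∈ Icc 1 k, a j with hS
  have hSmono : Monotone S := by
    intro k m hkm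
    apply sum_le_sum_of_subset_of_nonneg (Icc_subset_Icc_right hkm)
    intro i _ _; exact ha i
  have hS0 : ∀ k, 0 ≤ S k := fun k => sum_nonneg fun i _ => ha i
  have hSz : S 0 = 0 := by simp [hS]
  have hSsucc : ∀ k, S (k + 1) = S k + a (k + 1) := by
    intro k
    rw [hS]
    dsimp only
    rw [sum_Icc_succ_top (by omega)]
  set B : ℝ := ∑' n, a n ^ 2 with hB
  have hB0 : 0 ≤ B := tsum_nonneg fun n => sq_nonneg _
  have hBle : ∀ F : Finset ℕ, ∑ k ∈ F, a k ^ 2 ≤ B := fun F =>
    hs.sum_le_tsum F (fun i _ => sq_nonneg _)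
  have htsq : ∀ n, 1 ≤ n → t n ^ 2 ≤ S n ^ 2 * a n ^ 2 := by
    intro n hn
    have h1 := hta n hn
    have h2 := (ht n hn).1
    calc t n ^ 2 ≤ (a n * S n) ^ 2 := pow_le_pow_left₀ h2 h1 2
      _ = _ := by ring
  by_cases hbd : ∃ C, ∀ k, S k ≤ C
  · obtain ⟨C, hC⟩ := hbd
    have hC0 : 0 ≤ C := (hS0 0).trans (hC 0)
    have hpos : ∀ s : ℕ, 1 ≤ 4 ^ s := fun s => Nat.one_le_pow _ _ (by norm_num)
    refine ⟨fun s => 4 ^ s - 1, by simp, ?_, ?_, ?_⟩
    · apply strictMono_nat_of_lt_succ
      intro s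
      have := hpos s
      have : (4 : ℕ) ^ (s + 1) = 4 * 4 ^ s := by rw [pow_succ]; ring
      omega
    · have h1 : ∀ s : ℕ, (2 : ℝ) ^ s / (((4 ^ (s + 1) - 1 : ℕ) : ℝ) - ((4 ^ s - 1 : ℕ) : ℝ)) =
          (1 / 3) * (1 / 2) ^ s := by
        intro s
        rw [Nat.cast_sub (hpos _), Nat.cast_sub (hpos _)]
        push_cast
        have e1 : (4 : ℝ) ^ (s + 1) - 1 - (4 ^ s - 1) = 3 * (2 ^ s * 2 ^ s) := by
          rw [← mul_pow]; norm_num; ring
        rw [e1, one_div_pow]
        field_simp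
      simp only [h1]
      exact (summable_geometric_of_lt_one (by norm_num) (by norm_num)).mul_left _
    · refine Summable.of_nonneg_of_le (fun s => by positivity) (fun s => ?_)
        ((summable_geometric_of_lt_one (by norm_num) (by norm_num :
          (1 / 2 : ℝ) < 1)).mul_left (C ^ 2 * B))
      rw [one_div_pow, mul_one_div]
      apply div_le_div_of_nonneg_right _ (by positivity)
      calc ∑ k ∈ Icc 1 (4 ^ s - 1), t k ^ 2 ≤ ∑ k ∈ Icc 1 (4 ^ s - 1), C ^ 2 * a k ^ 2 := by
            apply sum_le_sum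
            intro k hk
            rw [mem_Icc] at hk
            refine (htsq k hk.1).trans (mul_le_mul_of_nonneg_right ?_ (sq_nonneg _))
            exact pow_le_pow_left₀ (hS0 k) (hC k) 2
        _ = C ^ 2 * ∑ k ∈ Icc 1 (4 ^ s - 1), a k ^ 2 := by rw [mul_sum]
        _ ≤ _ := mul_le_mul_of_nonneg_left (hBle _) (sq_nonneg _)
  · push Not at hbd
    set A : ℝ := Real.sqrt B with hA
    have hA0 : 0 ≤ A := Real.sqrt_nonneg _
    have haA : ∀ k, a k ≤ A := by
      intro k
      apply Real.le_sqrt_of_sq_le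
      have := hBle {k}
      simpa using this
    set R : ℝ := Real.sqrt 2 with hR
    have hR2 : R ^ 2 = 2 := Real.sq_sqrt (by norm_num)
    have hR0 : 0 < R := Real.sqrt_pos.mpr (by norm_num)
    have hR14 : 7 / 5 ≤ R := by
      rw [hR]; apply Real.le_sqrt_of_sq_le; norm_num
    have hRs : ∀ s : ℕ, (R ^ s) ^ 2 = 2 ^ s := by
      intro s
      rw [← pow_mul, mul_comm, pow_mul, hR2]
    have hRge : ∀ s : ℕ, 1 ≤ R ^ s := fun s => one_le_pow₀ (by linarith)
    set K : ℝ := 5 * (A + 1) with hK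
    have hK0 : 0 < K := by rw [hK]; linarith
    set c : ℕ → ℝ := fun s => K * (R ^ s - 1) with hc
    have hex : ∀ s, ∃ k, c s ≤ S k := fun s => by
      obtain ⟨k, hk⟩ := hbd (c s)
      exact ⟨k, hk.le⟩
    set q : ℕ → ℕ := fun s => Nat.find (hex s) with hq
    have hq1 : ∀ s, c s ≤ S (q s) := fun s => Nat.find_spec (hex s)
    have hc0 : ∀ s, 0 ≤ c s := by
      intro s
      rw [hc]
      exact mul_nonneg hK0.le (by linarith [hRge s])
    have hq2 : ∀ s, S (q s) ≤ c s + A := by
      intro s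
      rcases Nat.eq_zero_or_pos (q s) with h | h
      · rw [h, hSz]
        have := hc0 s
        linarith
      · obtain ⟨m, hm⟩ := Nat.exists_eq_succ_of_ne_zero h.ne'
        have h3 : ¬ c s ≤ S m := Nat.find_min (hex s) (by
          change m < q s
          omega)
        rw [hm, Nat.succ_eq_add_one, hSsucc]
        have := haA (m + 1)
        push Not at h3
        linarith
    have hq0 : q 0 = 0 := by
      have : q 0 ≤ 0 := Nat.find_min' (hex 0) (by rw [hSz, hc]; simp)
      omega
    have hgap : ∀ s, R ^ s ≤ S (q (s + 1)) - S (q s) := by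
      intro s
      have e1 := hq1 (s + 1)
      have e2 := hq2 s
      have e3 : c (s + 1) - c s = K * ((R - 1) * R ^ s) := by
        rw [hc]; dsimp only; rw [pow_succ]; ring
      have e4 : 2 * (A + 1) * R ^ s ≤ K * ((R - 1) * R ^ s) := by
        have : 2 * (A + 1) ≤ K * (R - 1) := by
          rw [hK]; nlinarith
        calc 2 * (A + 1) * R ^ s ≤ K * (R - 1) * R ^ s :=
              mul_le_mul_of_nonneg_right this (by positivity)
          _ = _ := by ring
      have e5 : A ≤ A * R ^ s := by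
        have := mul_le_mul_of_nonneg_left (hRge s) hA0
        linarith
      have e6 : 0 ≤ A * R ^ s := by positivity
      have e7 : 0 ≤ R ^ s := by positivity
      linarith
    have hqlt : ∀ s, q s < q (s + 1) := by
      intro s
      by_contra hcon
      push Not at hcon
      have e1 := hSmono hcon
      have e2 := hgap s
      have e3 := hRge s
      linarith
    have hqm : StrictMono q := strictMono_nat_of_lt_succ hqlt
    set b : ℕ → ℝ := fun s => ∑ k ∈ Ioc (q s) (q (s + 1)), a k ^ 2 with hb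
    have hb0 : ∀ s, 0 ≤ b s := fun s => sum_nonneg fun i _ => sq_nonneg _
    have hbsum : ∀ N, ∑ s ∈ range N, b s ≤ B := by
      intro N
      rw [hb, ← sum_blocks _ q hq0 hqm.monotone]
      exact hBle _
    have hSdiff : ∀ s, S (q (s + 1)) - S (q s) = ∑ k ∈ Ioc (q s) (q (s + 1)), a k := by
      intro s
      rw [hS]
      dsimp only
      rw [Icc_one_eq, Icc_one_eq, ← sum_Ioc_consecutive a (Nat.zero_le _) (hqlt s).le]
      ring
    have hΔ : ∀ s, (0 : ℝ) < (q (s + 1) : ℝ) - q s := by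
      intro s
      have : (q s : ℝ) < q (s + 1) := by exact_mod_cast hqlt s
      linarith
    refine ⟨q, hq0, hqm, ?_, ?_⟩
    · have hbs : Summable b := summable_of_sum_range_le hb0 hbsum
      refine Summable.of_nonneg_of_le (fun s => ?_) (fun s => ?_) hbs
      · have := hΔ s
        positivity
      · rw [div_le_iff₀ (hΔ s), ← hRs s]
        have e1 := hgap s
        calc (R ^ s) ^ 2 ≤ (S (q (s + 1)) - S (q s)) ^ 2 :=
              pow_le_pow_left₀ (by positivity) e1 2
          _ = (∑ k ∈ Ioc (q s) (q (s + 1)), a k) ^ 2 := by rw [hSdiff]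
          _ ≤ (Ioc (q s) (q (s + 1))).card * ∑ k ∈ Ioc (q s) (q (s + 1)), a k ^ 2 :=
              sq_sum_le_card_mul_sum_sq
          _ = b s * ((q (s + 1) : ℝ) - q s) := by
              rw [Nat.card_Ioc, Nat.cast_sub (hqlt s).le, mul_comm]
    · set x : ℕ → ℝ := fun s => (∑ k ∈ Icc 1 (q s), t k ^ 2) / (2 : ℝ) ^ s with hx
      have hx0 : ∀ s, 0 ≤ x s := fun s => by
        rw [hx]; positivity
      have hxz : x 0 = 0 := by
        rw [hx]; dsimp only; rw [hq0]; simp
      set D : ℝ := (K + A) ^ 2 with hD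
      have hD0 : 0 ≤ D := sq_nonneg _
      have hrec : ∀ s, x (s + 1) ≤ x s / 2 + D * b s := by
        intro s
        have e1 : ∑ k ∈ Icc 1 (q (s + 1)), t k ^ 2 =
            ∑ k ∈ Icc 1 (q s), t k ^ 2 + ∑ k ∈ Ioc (q s) (q (s + 1)), t k ^ 2 := by
          rw [Icc_one_eq, Icc_one_eq, sum_Ioc_consecutive _ (Nat.zero_le _) (hqlt s).le]
        have e2 : ∑ k ∈ Ioc (q s) (q (s + 1)), t k ^ 2 ≤ D * 2 ^ (s + 1) * b s := by
          rw [hb]
          dsimp only
          rw [mul_sum]
          apply sum_le_sum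
          intro k hk
          rw [mem_Ioc] at hk
          refine (htsq k (by omega)).trans (mul_le_mul_of_nonneg_right ?_ (sq_nonneg _))
          have e3 : S k ≤ (K + A) * R ^ (s + 1) := by
            have e4 := hSmono hk.2
            have e5 := hq2 (s + 1)
            have e6 : c (s + 1) = K * R ^ (s + 1) - K := by rw [hc]; ring
            have e7 := mul_le_mul_of_nonneg_left (hRge (s + 1)) hA0
            linarith
          calc S k ^ 2 ≤ ((K + A) * R ^ (s + 1)) ^ 2 := pow_le_pow_left₀ (hS0 k) e3 2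
            _ = D * 2 ^ (s + 1) := by rw [mul_pow, hRs]
        have e8 : x (s + 1) = (∑ k ∈ Icc 1 (q s), t k ^ 2) / 2 ^ (s + 1) +
            (∑ k ∈ Ioc (q s) (q (s + 1)), t k ^ 2) / 2 ^ (s + 1) := by
          rw [hx]; dsimp only; rw [e1, add_div]
        have e9 : (∑ k ∈ Icc 1 (q s), t k ^ 2) / 2 ^ (s + 1) = x s / 2 := by
          rw [hx]; dsimp only; rw [pow_succ]; field_simp
        have e10 : (∑ k ∈ Ioc (q s) (q (s + 1)), t k ^ 2) / 2 ^ (s + 1) ≤ D * b s := by
          rw [div_le_iff₀ (by positivity)]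
          calc _ ≤ _ := e2
            _ = _ := by ring
        rw [e8, e9]
        linarith
      apply summable_of_sum_range_le (c := 2 * (D * B)) hx0
      intro N
      induction N with
      | zero => simp; positivity
      | succ N ih =>
        rw [sum_range_succ', hxz, add_zero]
        have e1 : ∑ s ∈ range N, x (s + 1) ≤ ∑ s ∈ range N, (x s / 2 + D * b s) :=
          sum_le_sum fun s _ => hrec s
        rw [sum_add_distrib, ← sum_div, ← mul_sum] at e1
        have e2 := mul_le_mul_of_nonneg_left (hbsum N) hD0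
        linarith

end Pool.Agent.H66R3.WB
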